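import Mathlib

set_option autoImplicit false

open Topology Filter Real

namespace Pool.Agent.Lib.MP_76381c_al

/-- The absolute value of the argument of a point of the circle. -/
noncomputable def nrm (z : Circle) : ℝ := |Complex.arg (z : ℂ)|

lemma nrm_nonneg (z : Circle) : 0 ≤ nrm z := abs_nonneg _

lemma nrm_le_pi (z : Circle) : nrm z ≤ π := Complex.abs_arg_le_pi _

@[simp] lemma nrm_one : nrm 1 = 0 := by simp [nrm]

lemma nrm_eq_zero {z : Circle} : nrm z = 0 ↔ z = 1 := by
  simp [nrm]

/-- the norm of `exp r` is at most `|r|`. -/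
lemma nrm_exp_le (r : ℝ) : nrm (Circle.exp r) ≤ |r| := by
  by_cases h : |r| < π
  · have h1 : -π < r := (abs_lt.1 h).1
    have h2 : r ≤ π := (abs_lt.1 h).2.le
    rw [nrm, Circle.arg_exp h1 h2]
  · exact (nrm_le_pi _).trans (not_lt.1 h)

lemma nrm_exp_eq {r : ℝ} (h : |r| ≤ π) : nrm (Circle.exp r) = |r| := by
  rcases eq_or_ne r (-π) with rfl | hr
  · have : Circle.exp (-π) = Circle.exp π := by
      rw [Circle.exp_eq_exp]
      exact ⟨-1, by push_cast; ring⟩
    rw [this, nrm, Circle.arg_exp (by linarith [pi_pos]) le_rfl, abs_neg]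
  · have h1 : -π < r := lt_of_le_of_ne (abs_le.1 h).1 (Ne.symm hr)
    rw [nrm, Circle.arg_exp h1 (abs_le.1 h).2]

lemma nrm_inv (z : Circle) : nrm z⁻¹ = nrm z := by
  conv_lhs => rw [← Circle.exp_arg z, ← Circle.exp_neg]
  rw [nrm_exp_eq (by rw [abs_neg]; exact nrm_le_pi z), abs_neg, nrm]

lemma nrm_mul_le (z w : Circle) : nrm (z * w) ≤ nrm z + nrm w := by
  conv_lhs => rw [← Circle.exp_arg z, ← Circle.exp_arg w, ← Circle.exp_add]
  exact (nrm_exp_le _).trans (abs_add_le _ _)

lemma nrm_div_le (z w : Circle) : nrm (z / w) ≤ nrm z + nrm w := by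
  rw [div_eq_mul_inv]
  exact (nrm_mul_le _ _).trans (by rw [nrm_inv])

lemma nrm_div_comm (z w : Circle) : nrm (z / w) = nrm (w / z) := by
  rw [← nrm_inv, inv_div]

lemma nrm_div_triangle (z w v : Circle) : nrm (z / v) ≤ nrm (z / w) + nrm (w / v) := by
  have : z / v = (z / w) * (w / v) := by simp
  rw [this]
  exact nrm_mul_le _ _

lemma nrm_sub_le (z w : Circle) : nrm z ≤ nrm (z / w) + nrm w := by
  have : z = (z / w) * w := by simp
  conv_lhs => rw [this]
  exact nrm_mul_le _ _

lemma continuous_nrm : Continuous nrm := by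
  have h : nrm = fun z : Circle => |((z : ℂ)).arg| := rfl
  have key : ∀ z : Circle, nrm z = Real.arccos (z : ℂ).re := by
    intro z
    have h1 : Real.cos (nrm z) = (z : ℂ).re := by
      rw [nrm, Real.cos_abs, Complex.cos_arg z.coe_ne_zero, Circle.norm_coe, div_one]
    rw [← h1, Real.arccos_cos (nrm_nonneg z) (nrm_le_pi z)]
  have : nrm = fun z : Circle => Real.arccos (z : ℂ).re := funext key
  rw [this]
  exact Real.continuous_arccos.comp (Complex.continuous_re.comp continuous_subtype_val)

lemma tendsto_nrm_iff {ι : Type*} {l : Filter ι} {f : ι → Circle} :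
    Tendsto f l (𝓝 1) ↔ Tendsto (fun i => nrm (f i)) l (𝓝 0) := by
  constructor
  · intro h
    have := (continuous_nrm.tendsto 1).comp h
    rw [nrm_one] at this
    exact this
  · intro h
    have h1 : Tendsto (fun i => Complex.arg (f i : ℂ)) l (𝓝 0) := by
      rw [tendsto_zero_iff_abs_tendsto_zero]
      exact h
    have h2 := (Circle.exp.continuous.tendsto 0).comp h1
    rw [Circle.exp_zero] at h2
    refine h2.congr fun i => ?_
    simp

lemma tendsto_iff_nrm_div {ι : Type*} {l : Filter ι} {f : ι → Circle} {z : Circle} :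
    Tendsto f l (𝓝 z) ↔ Tendsto (fun i => nrm (f i / z)) l (𝓝 0) := by
  rw [← tendsto_nrm_iff]
  constructor
  · intro h
    have := h.div_const' z
    simpa using this
  · intro h
    have := h.mul_const z
    simpa using this

/-- the sets `{nrm < ε}` are neighbourhoods of one. -/
lemma nrm_lt_mem_nhds {ε : ℝ} (hε : 0 < ε) : {z : Circle | nrm z < ε} ∈ 𝓝 (1 : Circle) := by
  have : {z : Circle | nrm z < ε} = nrm ⁻¹' (Set.Iio ε) := rfl
  rw [this]
  exact continuous_nrm.continuousAt.preimage_mem_nhds (by rw [nrm_one]; exact Iio_mem_nhds hε)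

lemma exists_nrm_lt_subset {U : Set Circle} (hU : U ∈ 𝓝 (1 : Circle)) :
    ∃ ε > 0, ∀ z : Circle, nrm z < ε → z ∈ U := by
  have h : Circle.exp ⁻¹' U ∈ 𝓝 (0 : ℝ) :=
    Circle.exp.continuous.continuousAt.preimage_mem_nhds (by rwa [Circle.exp_zero])
  obtain ⟨ε, hε, h2⟩ := Metric.mem_nhds_iff.1 h
  refine ⟨ε, hε, fun z hz => ?_⟩
  have : Complex.arg z ∈ Metric.ball (0 : ℝ) ε := by
    rw [Metric.mem_ball, dist_zero_right, Real.norm_eq_abs]
    exact hz
  simpa using h2 this

/-- Quantitative absence of small subgroups. -/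
lemma nrm_lt_of_pow {z : Circle} {n : ℕ} (hn : 0 < n) (h : ∀ j, 0 < j → j ≤ n → nrm (z ^ j) < π / 2) :
    nrm z < π / (2 * n) := by
  have key : ∀ j : ℕ, 0 < j → j ≤ n → z ∈ Circle.centeredArc (π / (2 * j)) := by
    intro j hj
    induction j with
    | zero => exact absurd hj (lt_irrefl _)
    | succ j ih =>
      intro hjn
      rcases Nat.eq_zero_or_pos j with rfl | hj'
      · have := h 1 one_pos hjn
        rw [pow_one] at this
        rw [Circle.mem_centeredArc (by
          have := pi_pos
          norm_num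
          linarith)]
        simpa [nrm] using this
      · have h1 := ih hj' (by omega)
        have h2 := h (j + 1) (by omega) hjn
        have h3 : z ∈ Circle.centeredArc (π / ((j + 1 : ℕ) : ℝ)) := by
          refine Circle.centeredArc_mono ?_ h1
          have : (1 : ℝ) ≤ j := by exact_mod_cast hj'
          push_cast
          gcongr
          linarith
        have h4 : z ^ (j + 1) ∈ Circle.centeredArc (π / 2) := by
          rw [Circle.mem_centeredArc (by linarith [pi_pos])]
          simpa [nrm] using h2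
        have h5 := Circle.mem_centeredArc_div (by linarith [pi_pos]) h3 h4
        have : π / 2 / ((j + 1 : ℕ) : ℝ) = π / (2 * ((j + 1 : ℕ) : ℝ)) := by
          rw [div_div]
        rwa [this] at h5
  have h1 := key n hn le_rfl
  rw [Circle.mem_centeredArc] at h1
  · exact h1
  · have : (1 : ℝ) ≤ n := by exact_mod_cast hn
    rw [div_le_iff₀ (by positivity)]
    nlinarith [pi_pos]

end Pool.Agent.Lib.MP_76381c_al
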