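import Mathlib
import Pool.Agent.Lib.MP_76381c_al.CircleAux

set_option autoImplicit false

open Topology Filter Real

namespace Pool.Agent.Lib.MP_76381c_al

/-- A pointwise convergence modulo `2 * π` on a Banach space gives a uniform bound. -/
lemma bound_of_exp_tendsto {E : Type*} [NormedAddCommGroup E] [NormedSpace ℝ E] [CompleteSpace E]
    (l : ℕ → E →L[ℝ] ℝ) (h : ∀ u, Tendsto (fun n => Circle.exp (l n u)) atTop (𝓝 1)) :
    ∃ ε > 0, ∃ m : ℕ, ∀ n ≥ m, ∀ u : E, ‖u‖ < ε → |l n u| ≤ 2 := by
  let V : ℕ → Set E := fun m => {u | ∀ n ≥ m, nrm (Circle.exp (l n u)) ≤ 1}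
  have hVc : ∀ m, IsClosed (V m) := by
    intro m
    have : V m = ⋂ (n : ℕ) (_ : n ≥ m), {u | nrm (Circle.exp (l n u)) ≤ 1} := by
      ext u
      simp [V]
    rw [this]
    refine isClosed_iInter fun n => isClosed_iInter fun _ => ?_
    exact isClosed_le (continuous_nrm.comp (Circle.exp.continuous.comp (l n).continuous))
      continuous_const
  have hVu : ⋃ m, V m = Set.univ := by
    rw [Set.eq_univ_iff_forall]
    intro u
    have h1 := tendsto_nrm_iff.1 (h u)
    have h2 : ∀ᶠ n in atTop, nrm (Circle.exp (l n u)) < 1 := h1.eventually_lt_const one_pos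
    obtain ⟨m, hm⟩ := eventually_atTop.1 h2
    exact Set.mem_iUnion.2 ⟨m, fun n hn => (hm n hn).le⟩
  obtain ⟨m, u₀, hu₀⟩ := nonempty_interior_of_iUnion_of_closed hVc hVu
  obtain ⟨ε, hε, hball⟩ := Metric.mem_nhds_iff.1 (mem_interior_iff_mem_nhds.1 hu₀)
  refine ⟨ε, hε, m, fun n hn => ?_⟩
  have key : ∀ u : E, ‖u‖ < ε → nrm (Circle.exp (l n u)) ≤ 2 := by
    intro u hu
    have h1 : u₀ + u ∈ V m := hball (by simpa [Metric.mem_ball, dist_eq_norm] using hu)
    have h2 : u₀ ∈ V m := interior_subset hu₀
    have h3 := h1 n hn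
    have h4 := h2 n hn
    have h5 : Circle.exp (l n u) = Circle.exp (l n (u₀ + u)) / Circle.exp (l n u₀) := by
      rw [map_add, Circle.exp_add]
      simp
    rw [h5]
    refine (nrm_div_le _ _).trans (by linarith)
  intro u hu
  by_contra hcon
  have hcon' := not_le.1 hcon
  by_cases hπ : |l n u| ≤ π
  · have := key u hu
    rw [nrm_exp_eq hπ] at this
    exact hcon this
  · have hπ' := not_le.1 hπ
    have hpos : 0 < |l n u| := by linarith
    have h1 : ‖(π / |l n u|) • u‖ < ε := by
      rw [norm_smul, Real.norm_eq_abs, abs_of_nonneg (by positivity)]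
      calc π / |l n u| * ‖u‖ ≤ 1 * ‖u‖ := by
            gcongr
            rw [div_le_one hpos]
            exact hπ'.le
        _ = ‖u‖ := one_mul _
        _ < ε := hu
    have h2 := key _ h1
    rw [map_smul, smul_eq_mul] at h2
    have h3 : |π / |l n u| * l n u| = π := by
      rw [abs_mul, abs_of_nonneg (by positivity : 0 ≤ π / |l n u|)]
      field_simp
    rw [nrm_exp_eq h3.le, h3] at h2
    linarith [pi_gt_three]

/-- Convergence of all real multiples modulo `2 * π` implies convergence. -/
lemma tendsto_zero_of_exp {r : ℕ → ℝ}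
    (h : ∀ c : ℝ, Tendsto (fun n => Circle.exp (c * r n)) atTop (𝓝 1)) :
    Tendsto r atTop (𝓝 0) := by
  obtain ⟨ε, hε, m, hm⟩ := bound_of_exp_tendsto (E := ℝ)
    (fun n => ContinuousLinearMap.toSpanSingleton ℝ (r n))
    (fun u => by simpa [ContinuousLinearMap.toSpanSingleton_apply, mul_comm] using h u)
  have h1 : Tendsto (fun n => Circle.exp ((ε / 2) * r n)) atTop (𝓝 1) := h (ε / 2)
  rw [tendsto_nrm_iff] at h1
  have h2 : ∀ᶠ n in atTop, nrm (Circle.exp ((ε / 2) * r n)) = |(ε / 2) * r n| := by
    filter_upwards [eventually_ge_atTop m] with n hn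
    have h3 := hm n hn (ε / 2) (by
      rw [Real.norm_eq_abs, abs_of_pos (by positivity)]
      linarith)
    rw [ContinuousLinearMap.toSpanSingleton_apply, smul_eq_mul] at h3
    exact nrm_exp_eq (by linarith [pi_gt_three])
  have h3 : Tendsto (fun n => |(ε / 2) * r n|) atTop (𝓝 0) := h1.congr' h2
  have h4 : Tendsto (fun n => (ε / 2) * r n) atTop (𝓝 0) :=
    (tendsto_zero_iff_abs_tendsto_zero _).2 h3
  have h5 := h4.const_mul (2 / ε)
  rw [mul_zero] at h5
  refine h5.congr fun n => ?_
  field_simp

/-- A continuous homomorphism from a real normed space to the circle lifts to a functional. -/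
lemma exists_lift {E : Type*} [NormedAddCommGroup E] [NormedSpace ℝ E] (κ : E → Circle)
    (hadd : ∀ u v, κ (u + v) = κ u * κ v) (hcont : Continuous κ) :
    ∃ l : E →L[ℝ] ℝ, ∀ u, κ u = Circle.exp (l u) := by
  have hκ0 : κ 0 = 1 := by
    have := hadd 0 0
    rw [add_zero] at this
    exact left_eq_mul.1 this
  obtain ⟨F, ⟨hF0, hF⟩, -⟩ := Circle.isCoveringMap_exp.existsUnique_continuousMap_lifts
    (⟨κ, hcont⟩ : C(E, Circle)) 0 0 (by simp [hκ0])
  have hF' : ∀ u, Circle.exp (F u) = κ u := fun u => congrFun hF u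
  have hFadd : ∀ u v, F (u + v) = F u + F v := by
    intro u v
    -- the defect is continuous with values in a discrete set
    have hD : Continuous (fun p : E × E => F (p.1 + p.2) - F p.1 - F p.2) := by fun_prop
    have hD1 : ∀ p : E × E, ∃ n : ℤ, F (p.1 + p.2) - F p.1 - F p.2 = n * (2 * π) := by
      intro p
      rw [← Circle.exp_eq_one, Circle.exp_sub, Circle.exp_sub, hF', hF', hF', hadd]
      simp
    have hconst : ∀ p : E × E, F (p.1 + p.2) - F p.1 - F p.2 = 0 := by
      choose n hn using hD1
      have hn' : Continuous n := by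
        have h1 : Continuous (fun p => ((n p : ℤ) : ℝ)) := by
          have : (fun p => ((n p : ℤ) : ℝ)) = fun p : E × E =>
              (F (p.1 + p.2) - F p.1 - F p.2) / (2 * π) := by
            funext p
            rw [hn p]
            have := pi_pos
            field_simp
          rw [this]
          exact hD.div_const _
        exact (Int.isClosedEmbedding_coe_real.isEmbedding.continuous_iff).2 h1
      intro p
      have h2 : n p = n (0, 0) := PreconnectedSpace.constant (by infer_instance) hn'
      have h3 := hn (0, 0)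
      have h4 : F ((0 : E) + 0) - F 0 - F 0 = 0 := by simp [hF0]
      rw [hn p, h2]
      simp only at h3
      rw [h4] at h3
      exact h3.symm
    have := hconst (u, v)
    simp only at this
    linarith
  refine ⟨(AddMonoidHom.mk' (fun u => F u) hFadd).toRealLinearMap F.continuous, fun u => ?_⟩
  exact (hF' u).symm

end Pool.Agent.Lib.MP_76381c_al
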