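import Mathlib
import Pool.Agent.Lib.MP_76381c_al.Banach

set_option autoImplicit false

open Topology Filter Real

namespace Pool.Agent.Lib.MP_76381c_al

/-- The index space, a Cantor space. -/
abbrev Y : Type := ℕ → Fin 3

/-- The index set of the free basis. -/
abbrev S : Type := List (Fin 3) × ℕ

/-- The node of level `n` on the branch `x`, with weight index `i`. -/
def node (x : Y) (n i : ℕ) : S := (PiNat.res x n, i)

lemma node_eq_iff {x y : Y} {n m i j : ℕ} :
    node x n i = node y m j ↔ n = m ∧ i = j ∧ ∀ k < n, x k = y k := by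
  unfold node
  constructor
  · intro h
    have h1 : PiNat.res x n = PiNat.res y m := congrArg Prod.fst h
    have h2 : i = j := congrArg Prod.snd h
    have h3 : n = m := by
      have := congrArg List.length h1
      simpa using this
    subst h3
    exact ⟨rfl, h2, fun k hk => (PiNat.res_eq_res.1 h1) hk⟩
  · rintro ⟨rfl, rfl, h⟩
    rw [Prod.mk.injEq]
    exact ⟨PiNat.res_eq_res.2 fun m hm => h m hm, rfl⟩

lemma exists_node (s : S) : ∃ x : Y, s = node x s.1.length s.2 := by
  obtain ⟨l, i⟩ := s
  suffices h : ∃ x : Y, PiNat.res x l.length = l by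
    obtain ⟨x, hx⟩ := h
    exact ⟨x, by simp [node, hx]⟩
  induction l with
  | nil => exact ⟨fun _ => 0, rfl⟩
  | cons a l ih =>
    obtain ⟨x, hx⟩ := ih
    refine ⟨Function.update x l.length a, ?_⟩
    rw [List.length_cons, PiNat.res_succ, Function.update_self]
    congr 1
    conv_rhs => rw [← hx]
    rw [PiNat.res_eq_res]
    intro m hm
    rw [Function.update_of_ne hm.ne]

/-- The weights. -/
noncomputable def zz (i : ℕ) : ℝ := π / 2 ^ i

lemma zz_pos (i : ℕ) : 0 < zz i := by unfold zz; positivity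

lemma tendsto_zz : Tendsto zz atTop (𝓝 0) := by
  have h : Tendsto (fun i : ℕ => π * (1 / 2 : ℝ) ^ i) atTop (𝓝 (π * 0)) :=
    (tendsto_pow_atTop_nhds_zero_of_lt_one (by norm_num) (by norm_num)).const_mul π
  rw [mul_zero] at h
  refine h.congr fun i => ?_
  rw [zz, one_div, inv_pow]
  rfl

/-- The basic function attached to the branch `x`. -/
noncomputable def phi (x : Y) (s : S) : ℝ := by
  classical
  exact if s = node x s.1.length s.2 then zz s.2 else 0

lemma phi_node_self (x : Y) (n i : ℕ) : phi x (node x n i) = zz i := by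
  unfold phi
  rw [if_pos]
  · rfl
  · simp [node]

lemma phi_node_of_ne {x y : Y} {n i : ℕ} (h : ∃ k < n, x k ≠ y k) : phi y (node x n i) = 0 := by
  unfold phi
  rw [if_neg]
  intro h1
  obtain ⟨k, hk, hne⟩ := h
  have h2 : node x n i = node y n i := by
    rw [h1]
    simp [node]
  exact hne ((node_eq_iff.1 h2).2.2 k hk)

lemma phi_nonneg (x : Y) (s : S) : 0 ≤ phi x s := by
  unfold phi
  split_ifs
  · exact (zz_pos _).le
  · exact le_rfl

lemma phi_le (x : Y) (s : S) : phi x s ≤ zz s.2 := by
  unfold phi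
  split_ifs
  · exact le_rfl
  · exact (zz_pos _).le

lemma phi_eq_zero_or {x : Y} {s : S} (h : phi x s ≠ 0) : s = node x s.1.length s.2 := by
  by_contra hcon
  apply h
  unfold phi
  rw [if_neg hcon]

/-- `phi · s` only depends on finitely many coordinates. -/
lemma phi_congr {x y : Y} {s : S} (h : ∀ k < s.1.length, x k = y k) : phi x s = phi y s := by
  have h1 : node x s.1.length s.2 = node y s.1.length s.2 := node_eq_iff.2 ⟨rfl, rfl, h⟩
  unfold phi
  rw [h1]

/-- Sequences of nodes meeting every branch and every weight finitely often. -/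
def NullSeq (s : ℕ → S) : Prop := ∀ (x : Y) (i : ℕ), {j | ∃ n, s j = node x n i}.Finite

/-- The class of perturbations. -/
def FF (f : S → ℝ) : Prop :=
  (∀ s : ℕ → S, NullSeq s → Tendsto (fun j => f (s j)) atTop (𝓝 0)) ∧
    ∀ (x : Y) (i : ℕ), Tendsto (fun n => f (node x n i)) (hyperfilter ℕ) (𝓝 0)

lemma NullSeq.tendsto_cofinite {s : ℕ → S} (hs : NullSeq s) : Tendsto s atTop cofinite := by
  rw [← Nat.cofinite_eq_atTop]
  refine Filter.Tendsto.cofinite_of_finite_preimage_singleton fun t => ?_
  obtain ⟨x, hx⟩ := exists_node t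
  refine Set.Finite.subset (hs x t.2) fun j hj => ?_
  refine ⟨t.1.length, ?_⟩
  rw [← hx]
  exact hj

lemma NullSeq.tendsto_phi {s : ℕ → S} (hs : NullSeq s) (x : Y) :
    Tendsto (fun j => phi x (s j)) atTop (𝓝 0) := by
  rw [Metric.tendsto_atTop]
  intro ε hε
  obtain ⟨i₀, hi₀⟩ := (tendsto_zz.eventually_lt_const hε).exists_forall_of_atTop
  have hfin : (⋃ i ∈ Finset.range i₀, {j | ∃ n, s j = node x n i}).Finite :=
    Set.Finite.biUnion (Finset.finite_toSet _) fun i _ => hs x i
  obtain ⟨N, hN⟩ := hfin.bddAbove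
  refine ⟨N + 1, fun j hj => ?_⟩
  rw [Real.dist_eq, sub_zero, abs_of_nonneg (phi_nonneg _ _)]
  by_contra hcon
  have hcon' := not_lt.1 hcon
  have h1 : phi x (s j) ≠ 0 := (hε.trans_le hcon').ne'
  have h2 := phi_eq_zero_or h1
  have h3 : (s j).2 < i₀ := by
    by_contra h
    have := hi₀ _ (not_lt.1 h)
    have := phi_le x (s j)
    linarith
  have h4 : j ∈ ⋃ i ∈ Finset.range i₀, {j | ∃ n, s j = node x n i} := by
    simp only [Set.mem_iUnion]
    exact ⟨(s j).2, Finset.mem_range.2 h3, (s j).1.length, h2⟩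
  have := hN h4
  omega

lemma FF.smul {f : S → ℝ} (hf : FF f) (c : ℝ) : FF (fun s => c * f s) := by
  refine ⟨fun s hs => ?_, fun x i => ?_⟩
  · have := (hf.1 s hs).const_mul c
    simpa using this
  · have := (hf.2 x i).const_mul c
    simpa using this

lemma FF_zero : FF 0 := ⟨fun _ _ => tendsto_const_nhds, fun _ _ => tendsto_const_nhds⟩

lemma node_injective (x : Y) (i : ℕ) : Function.Injective fun n => node x n i :=
  fun _ _ h => (node_eq_iff.1 h).1

lemma FF_of_cofinite {f : S → ℝ} (hf : Tendsto f cofinite (𝓝 0)) : FF f := by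
  refine ⟨fun s hs => hf.comp hs.tendsto_cofinite, fun x i => ?_⟩
  exact (hf.comp (node_injective x i).tendsto_cofinite).mono_left
    hyperfilter_le_cofinite

/-- Indicators of small subsets of a branch are in the class. -/
lemma FF_branch (x : Y) (i : ℕ) (D : Set ℕ) (hD : D ∉ hyperfilter ℕ) :
    FF (Set.indicator {s | ∃ n ∈ D, s = node x n i} 1) := by
  classical
  refine ⟨fun s hs => ?_, fun y j => ?_⟩
  · refine tendsto_const_nhds.congr' ?_
    have h1 : ∀ᶠ k in atTop, k ∉ {j | ∃ n, s j = node x n i} := by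
      rw [← Nat.cofinite_eq_atTop]
      exact (hs x i).compl_mem_cofinite
    filter_upwards [h1] with k hk
    rw [Set.indicator_of_notMem]
    rintro ⟨n, _, hn⟩
    exact hk ⟨n, hn⟩
  · refine tendsto_const_nhds.congr' ?_
    by_cases hyx : y = x
    · subst hyx
      have h1 : Dᶜ ∈ hyperfilter ℕ := Ultrafilter.compl_mem_iff_notMem.2 hD
      have h1' : ∀ᶠ n in (hyperfilter ℕ : Filter ℕ), n ∈ Dᶜ := h1
      filter_upwards [h1'] with n hn
      rw [Set.indicator_of_notMem]
      rintro ⟨m, hm, hnm⟩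
      have := (node_eq_iff.1 hnm).1
      subst this
      exact hn hm
    · obtain ⟨k, hk⟩ := Function.ne_iff.1 hyx
      have h1 : ∀ᶠ n in (hyperfilter ℕ : Filter ℕ), k < n :=
        Nat.hyperfilter_le_atTop (eventually_gt_atTop k)
      filter_upwards [h1] with n hn
      rw [Set.indicator_of_notMem]
      rintro ⟨m, hm, hnm⟩
      exact hk ((node_eq_iff.1 hnm).2.2 k hn)

/-- Cylinders form a neighbourhood basis. -/
lemma exists_cyl {U : Set Y} (hU : IsOpen U) {x : Y} (hx : x ∈ U) :
    ∃ n, ∀ y : Y, (∀ k < n, y k = x k) → y ∈ U := by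
  have hb := PiNat.isTopologicalBasis_cylinders (fun _ : ℕ => Fin 3)
  obtain ⟨_, ⟨z, n, rfl⟩, hxz, hsub⟩ := hb.exists_subset_of_mem_open hx hU
  refine ⟨n, fun y hy => hsub ?_⟩
  rw [PiNat.mem_cylinder_iff] at hxz ⊢
  intro i hi
  rw [hy i hi, hxz i hi]

/-- Tendsto in the Cantor space. -/
lemma eventually_agree {ι : Type*} {l : Filter ι} {u : ι → Y} {x : Y} (h : Tendsto u l (𝓝 x))
    (m : ℕ) : ∀ᶠ j in l, ∀ k < m, u j k = x k := by
  have := h ((PiNat.isOpen_cylinder (fun _ : ℕ => Fin 3) x m).mem_nhds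
    (PiNat.self_mem_cylinder x m))
  filter_upwards [this] with j hj
  exact hj

/-- The perturbation attached to a branch. -/
lemma exists_q : ∃ q : Y → S → ℝ, (∀ x, FF (q x)) ∧
    (∀ f, FF f → ∀ (x₀ : Y) (n : ℕ), ∃ x, (∀ k < n, x k = x₀ k) ∧ q x = f) ∧
    (∀ Z : ℕ → Set Y, (∀ m, IsClosed (Z m)) → (∀ x, q x = 0 → ∃ m, x ∈ Z m) →
      ∃ m, (interior (Z m)).Nonempty) := by
  classical
  have hcard : Cardinal.mk (ℕ → Bool) = Cardinal.mk (S → ℝ) := by
    simp [Cardinal.mk_real]
  obtain ⟨ψ⟩ := Cardinal.eq.1 hcard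
  let q : Y → S → ℝ := fun x =>
    if h : ∃ m, ∀ j ≥ m, x j ≠ 2 then
      (if FF (ψ fun j => decide (x (Nat.find h + j) = 1)) then
        ψ fun j => decide (x (Nat.find h + j) = 1) else 0)
    else 0
  have hq1 : ∀ x, FF (q x) := by
    intro x
    simp only [q]
    split_ifs with h1 h2
    · exact h2
    · exact FF_zero
    · exact FF_zero
  refine ⟨q, hq1, ?_, ?_⟩
  · intro f hf x₀ n
    let b : ℕ → Bool := ψ.symm f
    let x : Y := fun k => if k < n then x₀ k else if k = n then 2 else
      (if b (k - (n + 1)) then 1 else 0)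
    refine ⟨x, fun k hk => by simp [x, hk], ?_⟩
    have h : ∃ m, ∀ j ≥ m, x j ≠ 2 := by
      refine ⟨n + 1, fun j hj => ?_⟩
      have h1 : ¬ j < n := by omega
      have h2 : j ≠ n := by omega
      simp only [x, h1, h2, if_false]
      split_ifs <;> decide
    have hfind : Nat.find h = n + 1 := by
      rw [Nat.find_eq_iff]
      refine ⟨fun j hj => ?_, fun m hm hcon => ?_⟩
      · have h1 : ¬ j < n := by omega
        have h2 : j ≠ n := by omega
        simp only [x, h1, h2, if_false]
        split_ifs <;> decide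
      · exact hcon n (by omega) (by simp [x])
    have hb : (fun j => decide (x (Nat.find h + j) = 1)) = b := by
      funext j
      rw [hfind]
      have h1 : ¬ (n + 1 + j < n) := by omega
      have h2 : n + 1 + j ≠ n := by omega
      have h3 : n + 1 + j - (n + 1) = j := by omega
      simp only [x, h1, h2, if_false, h3]
      cases b j <;> simp
    simp only [q, dif_pos h, hb]
    have : ψ b = f := by simp [b]
    rw [this, if_pos hf]
  · intro Z hZ hcov
    let P : ℕ → Set Y := fun m => {x | ∀ j ≥ m, x j ≠ 2}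
    have hP : ∀ m, IsClosed (P m) := by
      intro m
      have : P m = ⋂ (j : ℕ) (_ : j ≥ m), {x : Y | x j ≠ 2} := by
        ext x
        simp [P]
      rw [this]
      refine isClosed_iInter fun j => isClosed_iInter fun _ => ?_
      have h1 : IsClosed ({2}ᶜ : Set (Fin 3)) := isClosed_discrete _
      have h2 : Continuous fun x : Y => x j := continuous_apply j
      exact h1.preimage h2
    obtain ⟨i, hi⟩ := nonempty_interior_of_iUnion_of_closed (X := Y)
      (f := (Sum.elim Z P : ℕ ⊕ ℕ → Set Y))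
      (by
        rintro (m | m)
        · exact hZ m
        · exact hP m)
      (by
        rw [Set.eq_univ_iff_forall]
        intro x
        by_cases h : ∃ m, ∀ j ≥ m, x j ≠ 2
        · obtain ⟨m, hm⟩ := h
          exact Set.mem_iUnion.2 ⟨Sum.inr m, hm⟩
        · obtain ⟨m, hm⟩ := hcov x (by simp only [q]; rw [dif_neg h])
          exact Set.mem_iUnion.2 ⟨Sum.inl m, hm⟩)
    rcases i with m | m
    · exact ⟨m, hi⟩
    · exfalso
      obtain ⟨x, hx⟩ := hi
      obtain ⟨n, hn⟩ := exists_cyl isOpen_interior hx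
      have h1 := interior_subset (hn (Function.update x (max m n) 2) (fun k hk => by
        rw [Function.update_of_ne]
        have := le_max_right m n
        omega))
      have h2 := h1 (max m n) (le_max_left _ _)
      rw [Function.update_self] at h2
      exact h2 rfl

end Pool.Agent.Lib.MP_76381c_al
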