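import Mathlib
import Pool.Agent.Lib.MP_76381c_al.CircleAux

set_option autoImplicit false

open Topology Filter Real

namespace Pool.Agent.Lib.MP_76381c_al

section averaging

variable {G : Type*} [CommGroup G]

/-- An averaging argument: the constant term of a bounded trigonometric polynomial is bounded. -/
lemma constant_term_le {ι : Type*} (J : Finset ι) (ψ : ι → G →* Circle) (c₀ : ℂ) (B : ℝ)
    (hψ : ∀ j ∈ J, ψ j ≠ 1) :
    ∀ c : ι → ℂ, (∀ g : G, ‖c₀ + ∑ j ∈ J, c j * (ψ j g : ℂ)‖ ≤ B) → ‖c₀‖ ≤ B := by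
  classical
  induction J using Finset.induction_on generalizing B with
  | empty =>
    intro c h
    simpa using h 1
  | insert j J hj ih =>
    intro c h
    have hψj : ψ j ≠ 1 := hψ j (Finset.mem_insert_self _ _)
    obtain ⟨g₁, hg₁⟩ : ∃ g, ψ j g ≠ 1 := by
      by_contra hcon
      push Not at hcon
      exact hψj (MonoidHom.ext hcon)
    set z : ℂ := (ψ j g₁ : ℂ) with hz
    have hz1 : z ≠ 1 := by
      intro h1
      exact hg₁ (Circle.coe_eq_one.1 h1)
    have hznorm : ‖z‖ = 1 := Circle.norm_coe _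
    set D : ℝ := 2 * ‖c j‖ / ‖z - 1‖ with hD
    have hzpos : 0 < ‖z - 1‖ := norm_pos_iff.2 (sub_ne_zero.2 hz1)
    have hDnn : 0 ≤ D := by positivity
    -- the averaged inequality
    have key : ∀ M : ℕ, 0 < M → ‖c₀‖ ≤ B + D / (M : ℝ) := by
      intro M hM
      have hM' : (M : ℂ) ≠ 0 := by exact_mod_cast hM.ne'
      have hMr : (0 : ℝ) < M := by exact_mod_cast hM
      let c' : ι → ℂ := fun i => c i * ((∑ m ∈ Finset.range M, ((ψ i g₁ : ℂ)) ^ m) / M)
      refine ih (B + D / (M : ℝ)) (fun i hi => hψ i (Finset.mem_insert_of_mem hi)) c' ?_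
      intro g
      have h1 : ∀ m : ℕ, ‖c₀ + ∑ i ∈ insert j J, c i * (ψ i (g₁ ^ m * g) : ℂ)‖ ≤ B :=
        fun m => h _
      have h2 : ‖∑ m ∈ Finset.range M, (c₀ + ∑ i ∈ insert j J, c i * (ψ i (g₁ ^ m * g) : ℂ))‖
          ≤ M * B := by
        refine (norm_sum_le_of_le _ (fun m _ => h1 m)).trans ?_
        simp
      have h3 : ∑ m ∈ Finset.range M, (c₀ + ∑ i ∈ insert j J, c i * (ψ i (g₁ ^ m * g) : ℂ)) =
          M * (c₀ + ∑ i ∈ J, c' i * (ψ i g : ℂ)) +
            c j * (ψ j g : ℂ) * ∑ m ∈ Finset.range M, z ^ m := by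
        simp_rw [Finset.sum_insert hj]
        rw [Finset.sum_add_distrib, Finset.sum_add_distrib]
        rw [Finset.sum_comm]
        have e1 : ∑ m ∈ Finset.range M, c j * (ψ j (g₁ ^ m * g) : ℂ) =
            c j * (ψ j g : ℂ) * ∑ m ∈ Finset.range M, z ^ m := by
          rw [Finset.mul_sum]
          refine Finset.sum_congr rfl fun m _ => ?_
          rw [map_mul, map_pow, Circle.coe_mul, Circle.coe_pow]
          ring
        have e2 : ∑ i ∈ J, ∑ m ∈ Finset.range M, c i * (ψ i (g₁ ^ m * g) : ℂ) =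
            M * ∑ i ∈ J, c' i * (ψ i g : ℂ) := by
          rw [Finset.mul_sum]
          refine Finset.sum_congr rfl fun i _ => ?_
          have : ∀ m : ℕ, c i * (ψ i (g₁ ^ m * g) : ℂ) =
              c i * (ψ i g : ℂ) * ((ψ i g₁ : ℂ)) ^ m := by
            intro m
            rw [map_mul, map_pow, Circle.coe_mul, Circle.coe_pow]
            ring
          simp_rw [this]
          rw [← Finset.mul_sum]
          simp only [c']
          field_simp
        rw [e1, e2]
        simp
        ring
      have h4 : ‖c j * (ψ j g : ℂ) * ∑ m ∈ Finset.range M, z ^ m‖ ≤ D := by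
        rw [geom_sum_eq hz1, norm_mul, norm_mul, Circle.norm_coe, mul_one, norm_div]
        have : ‖z ^ M - 1‖ ≤ 2 := by
          refine (norm_sub_le _ _).trans ?_
          rw [norm_pow, hznorm]
          norm_num
        rw [hD]
        calc ‖c j‖ * (‖z ^ M - 1‖ / ‖z - 1‖) ≤ ‖c j‖ * (2 / ‖z - 1‖) := by gcongr
          _ = 2 * ‖c j‖ / ‖z - 1‖ := by ring
      have h5 : ‖(M : ℂ) * (c₀ + ∑ i ∈ J, c' i * (ψ i g : ℂ))‖ ≤ M * B + D := by
        have : (M : ℂ) * (c₀ + ∑ i ∈ J, c' i * (ψ i g : ℂ)) =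
            ∑ m ∈ Finset.range M, (c₀ + ∑ i ∈ insert j J, c i * (ψ i (g₁ ^ m * g) : ℂ)) -
            c j * (ψ j g : ℂ) * ∑ m ∈ Finset.range M, z ^ m := by
          rw [h3]; ring
        rw [this]
        exact (norm_sub_le _ _).trans (add_le_add h2 h4)
      rw [norm_mul, Complex.norm_natCast] at h5
      have h6 : ‖c₀ + ∑ i ∈ J, c' i * (ψ i g : ℂ)‖ ≤ (M * B + D) / M := by
        rw [le_div_iff₀ hMr]
        linarith
      calc ‖c₀ + ∑ i ∈ J, c' i * (ψ i g : ℂ)‖ ≤ (M * B + D) / M := h6
        _ = B + D / M := by field_simp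
    have hlim : Tendsto (fun M : ℕ => B + D / (M : ℝ)) atTop (𝓝 (B + 0)) :=
      tendsto_const_nhds.add (tendsto_const_div_atTop_nhds_zero_nat D)
    rw [add_zero] at hlim
    exact ge_of_tendsto hlim (eventually_atTop.2 ⟨1, fun M hM => key M hM⟩)

end averaging

section dual

variable {G Y : Type*} [CommGroup G]

/-- The map of `G` into the product. -/
noncomputable def theta (t : Y → G →* Circle) (χ : G →* Circle) : G →* (Y → Circle) × Circle where
  toFun g := (fun x => t x g, χ g)
  map_one' := by ext <;> simp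
  map_mul' g h := by ext <;> simp

/-- the closure of the image of `G`. -/
noncomputable def KK (t : Y → G →* Circle) (χ : G →* Circle) : Subgroup ((Y → Circle) × Circle) :=
  (theta t χ).range.topologicalClosure

lemma theta_mem (t : Y → G →* Circle) (χ : G →* Circle) (g : G) : theta t χ g ∈ KK t χ :=
  Subgroup.le_topologicalClosure _ ⟨g, rfl⟩

instance (t : Y → G →* Circle) (χ : G →* Circle) : CompactSpace (KK t χ) := by
  exact isCompact_iff_compactSpace.1 (Subgroup.isClosed_topologicalClosure _).isCompact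

/-- the monomials. -/
noncomputable def mono (t : Y → G →* Circle) (χ : G →* Circle) (c : Y →₀ ℤ) : C(KK t χ, ℂ) where
  toFun p := ((∏ x ∈ c.support, (p : (Y → Circle) × Circle).1 x ^ (c x) : Circle) : ℂ)
  continuous_toFun := by
    have h1 : Continuous fun p : KK t χ =>
        (∏ x ∈ c.support, (p : (Y → Circle) × Circle).1 x ^ (c x) : Circle) := by
      refine continuous_finsetProd _ fun x _ => ?_
      exact ((continuous_apply x).comp (continuous_fst.comp continuous_subtype_val)).zpow (c x)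
    exact continuous_subtype_val.comp h1

lemma mono_apply (t : Y → G →* Circle) (χ : G →* Circle) (c : Y →₀ ℤ) (p : KK t χ) :
    mono t χ c p = ((c.prod fun x n => (p : (Y → Circle) × Circle).1 x ^ n : Circle) : ℂ) := rfl

lemma mono_zero (t : Y → G →* Circle) (χ : G →* Circle) : mono t χ 0 = 1 := by
  ext p
  rw [mono_apply]
  simp

lemma mono_add (t : Y → G →* Circle) (χ : G →* Circle) (c d : Y →₀ ℤ) :
    mono t χ (c + d) = mono t χ c * mono t χ d := by
  classical
  ext p
  rw [ContinuousMap.mul_apply, mono_apply, mono_apply, mono_apply, ← Circle.coe_mul,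
    Finsupp.prod_add_index']
  · intro x; simp
  · intro x m n; exact zpow_add _ _ _

lemma mono_neg (t : Y → G →* Circle) (χ : G →* Circle) (c : Y →₀ ℤ) :
    mono t χ (-c) = star (mono t χ c) := by
  ext p
  rw [ContinuousMap.star_apply, mono_apply, mono_apply, Finsupp.prod_neg_index (by simp)]
  change _ = (starRingEnd ℂ) _
  rw [← Circle.coe_inv_eq_conj]
  simp [Finsupp.prod, Finset.prod_inv_distrib]

/-- the algebra of trigonometric polynomials. -/
noncomputable def trig (t : Y → G →* Circle) (χ : G →* Circle) :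
    StarSubalgebra ℂ C(KK t χ, ℂ) where
  toSubalgebra := Algebra.adjoin ℂ (Set.range (mono t χ))
  star_mem' := by
    change Algebra.adjoin ℂ (Set.range (mono t χ)) ≤
      star (Algebra.adjoin ℂ (Set.range (mono t χ)))
    refine Algebra.adjoin_le ?_
    rintro - ⟨n, rfl⟩
    refine Algebra.subset_adjoin ⟨-n, ?_⟩
    exact mono_neg t χ n

lemma trig_coe (t : Y → G →* Circle) (χ : G →* Circle) :
    Subalgebra.toSubmodule (trig t χ).toSubalgebra =
      Submodule.span ℂ (Set.range (mono t χ)) := by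
  apply Algebra.adjoin_eq_span_of_subset
  refine Set.Subset.trans ?_ Submodule.subset_span
  intro x hx
  refine Submonoid.closure_induction (fun _ => id) ⟨0, ?_⟩ ?_ hx
  · exact mono_zero t χ
  · rintro - - - - ⟨m, rfl⟩ ⟨n, rfl⟩
    exact ⟨m + n, mono_add t χ m n⟩

/-- If `χ` is continuous for the topology induced by `t`, points of `KK` are determined by the
first coordinate. -/
lemma KK_fst_injective (t : Y → G →* Circle) (χ : G →* Circle)
    (hχ : ∀ ε > 0, ∃ U ∈ 𝓝 (1 : Y → Circle), ∀ g, (fun x => t x g) ∈ U → nrm (χ g) < ε) :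
    ∀ p ∈ KK t χ, p.1 = 1 → p.2 = 1 := by
  intro p hp h1
  rw [← nrm_eq_zero]
  refine le_antisymm ?_ (nrm_nonneg _)
  refine le_of_forall_pos_le_add fun ε hε => ?_
  rw [zero_add]
  by_contra hcon
  obtain ⟨U, hU, hU2⟩ := hχ ε hε
  have hp' : p ∈ closure ((theta t χ).range : Set ((Y → Circle) × Circle)) := hp
  rw [mem_closure_iff_nhds] at hp'
  have hV : {z : Circle | ε < nrm z} ∈ 𝓝 p.2 :=
    continuous_nrm.continuousAt.preimage_mem_nhds (Ioi_mem_nhds (not_le.1 hcon))
  have hN : U ×ˢ {z : Circle | ε < nrm z} ∈ 𝓝 p := by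
    rw [show p = (p.1, p.2) from rfl, nhds_prod_eq, h1]
    exact prod_mem_prod hU hV
  obtain ⟨q, ⟨hq1, hq2⟩, g, hg⟩ := hp' _ hN
  subst hg
  exact absurd (hU2 g hq1) (not_lt.2 (le_of_lt hq2))

/-- A character continuous for the topology induced by a family of characters is in the group
generated by the family. -/
theorem exists_finsupp_of_continuous (t : Y → G →* Circle) (χ : G →* Circle)
    (hχ : ∀ ε > 0, ∃ U ∈ 𝓝 (1 : Y → Circle), ∀ g, (fun x => t x g) ∈ U → nrm (χ g) < ε) :
    ∃ c : Y →₀ ℤ, ∀ g, χ g = c.prod fun x n => t x g ^ n := by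
  classical
  have hsep : (trig t χ).SeparatesPoints := by
    intro p q hpq
    by_contra hcon
    apply hpq
    have h1 : ∀ x, (p : (Y → Circle) × Circle).1 x = (q : (Y → Circle) × Circle).1 x := by
      intro x
      by_contra hx
      apply hcon
      refine ⟨mono t χ (Finsupp.single x 1),
        ⟨mono t χ (Finsupp.single x 1), Algebra.subset_adjoin ⟨_, rfl⟩, rfl⟩, ?_⟩
      simp only [mono_apply]
      rw [Finsupp.prod_single_index (by simp), Finsupp.prod_single_index (by simp), zpow_one,
        zpow_one]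
      intro h
      exact hx (Circle.coe_injective h)
    have h2 : (p : (Y → Circle) × Circle) / q ∈ KK t χ := Subgroup.div_mem _ p.2 q.2
    have h3 := KK_fst_injective t χ hχ _ h2 (by
      ext x
      simp [h1 x])
    ext x
    · exact congrArg _ (h1 x)
    · rw [Prod.snd_div, div_eq_one] at h3
      exact congrArg _ h3
  have hdense := ContinuousMap.starSubalgebra_topologicalClosure_eq_top_of_separatesPoints
    (trig t χ) hsep
  -- approximate the last coordinate
  let f : C(KK t χ, ℂ) := ⟨fun p => ((p : (Y → Circle) × Circle).2 : ℂ),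
    continuous_subtype_val.comp (continuous_snd.comp continuous_subtype_val)⟩
  have hf : f ∈ closure ((trig t χ : Set C(KK t χ, ℂ))) := by
    have : f ∈ (trig t χ).topologicalClosure := by rw [hdense]; trivial
    exact this
  obtain ⟨P, hP, hPf⟩ := Metric.mem_closure_iff.1 hf (1 / 2) (by norm_num)
  have hP' : P ∈ Submodule.span ℂ (Set.range (mono t χ)) := by
    rw [← trig_coe]
    exact hP
  rw [Finsupp.mem_span_range_iff_exists_finsupp] at hP'
  obtain ⟨c, rfl⟩ := hP'
  by_contra hcon
  push Not at hcon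
  -- the characters `ψ j = θ j / χ` are nontrivial
  let θ : (Y →₀ ℤ) → G →* Circle := fun j =>
    { toFun := fun g => j.prod fun x n => t x g ^ n
      map_one' := by simp [Finsupp.prod]
      map_mul' := fun g h => by
        simp only [Finsupp.prod, map_mul, mul_zpow]
        exact Finset.prod_mul_distrib }
  let ψ : (Y →₀ ℤ) → G →* Circle := fun j => θ j / χ
  have hψ : ∀ j ∈ c.support, ψ j ≠ 1 := by
    intro j _ h
    obtain ⟨g, hg⟩ := hcon j
    apply hg
    have := DFunLike.congr_fun h g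
    simp only [ψ, MonoidHom.div_apply, MonoidHom.one_apply, div_eq_one] at this
    exact this.symm
  have h1 : ∀ g : G, ‖(-1 : ℂ) + ∑ j ∈ c.support, c j * (ψ j g : ℂ)‖ ≤ 1 / 2 := by
    intro g
    have h2 : dist (f ⟨theta t χ g, theta_mem t χ g⟩)
        ((c.sum fun i a => a • mono t χ i) ⟨theta t χ g, theta_mem t χ g⟩) ≤ 1 / 2 :=
      (ContinuousMap.dist_apply_le_dist _).trans hPf.le
    have h3 : (-1 : ℂ) + ∑ j ∈ c.support, c j * (ψ j g : ℂ) =
        ((χ g : ℂ))⁻¹ * ((c.sum fun i a => a • mono t χ i) ⟨theta t χ g, theta_mem t χ g⟩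
          - f ⟨theta t χ g, theta_mem t χ g⟩) := by
      have e1 : (c.sum fun i a => a • mono t χ i) ⟨theta t χ g, theta_mem t χ g⟩ =
          ∑ j ∈ c.support, c j * (θ j g : ℂ) := by
        rw [Finsupp.sum, ContinuousMap.coe_sum, Finset.sum_apply]
        refine Finset.sum_congr rfl fun j _ => ?_
        rw [ContinuousMap.coe_smul, Pi.smul_apply, smul_eq_mul, mono_apply]
        rfl
      have e2 : f ⟨theta t χ g, theta_mem t χ g⟩ = (χ g : ℂ) := rfl
      rw [e1, e2, mul_sub, Finset.mul_sum, inv_mul_cancel₀ (Circle.coe_ne_zero _)]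
      rw [sub_eq_add_neg, add_comm]
      congr 1
      refine Finset.sum_congr rfl fun j _ => ?_
      simp only [ψ, MonoidHom.div_apply, Circle.coe_div]
      ring
    rw [h3, norm_mul, norm_inv, Circle.norm_coe, inv_one, one_mul, ← dist_eq_norm, dist_comm]
    exact h2
  have h2 := constant_term_le c.support ψ (-1) (1 / 2) hψ c h1
  norm_num at h2

end dual

end Pool.Agent.Lib.MP_76381c_al
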