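import Mathlib
import Pool.Agent.Lib.MP_76381c_al.CircleAux

set_option autoImplicit false

open Topology Filter Real

namespace Pool.Agent.Lib.MP_76381c_al

lemma hasBasis_nrm : (𝓝 (1 : Circle)).HasBasis (fun ε : ℝ => 0 < ε) (fun ε => {z | nrm z < ε}) := by
  refine ⟨fun U => ⟨fun hU => ?_, ?_⟩⟩
  · obtain ⟨ε, hε, h⟩ := exists_nrm_lt_subset hU
    exact ⟨ε, hε, h⟩
  · rintro ⟨ε, hε, h⟩
    exact mem_of_superset (nrm_lt_mem_nhds hε) h

section

variable {A : Type*} [CommGroup A] [TopologicalSpace A]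

/-- The continuous map underlying a character. -/
noncomputable def toC (χ : PontryaginDual A) : C(A, Circle) := ContinuousMonoidHom.toContinuousMap χ

lemma toC_apply (χ : PontryaginDual A) (a : A) : toC χ a = χ a := rfl

lemma isInducing_toC : IsInducing (toC : PontryaginDual A → C(A, Circle)) :=
  ContinuousMonoidHom.isInducing_toContinuousMap A Circle

lemma continuous_eval_dual (a : A) : Continuous fun χ : PontryaginDual A => χ a :=
  (ContinuousEvalConst.continuous_eval_const (F := C(A, Circle)) a).comp isInducing_toC.continuous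

lemma continuous_eval_compact [T2Space A] {C : Set A} (hC : IsCompact C) :
    Continuous fun p : PontryaginDual A × C => p.1 (p.2 : A) := by
  have : CompactSpace C := isCompact_iff_compactSpace.1 hC
  have h1 : Continuous fun p : C(C, Circle) × C => p.1 p.2 := ContinuousEval.continuous_eval
  have h2 : Continuous fun χ : PontryaginDual A => (toC χ).restrict C :=
    (ContinuousMap.continuous_restrict C).comp isInducing_toC.continuous
  exact h1.comp ((h2.comp continuous_fst).prodMk continuous_snd)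

lemma dual_nhds_one {W : Set (PontryaginDual A)} (hW : W ∈ 𝓝 (1 : PontryaginDual A)) :
    ∃ C : Set A, IsCompact C ∧ ∃ δ > 0, ∀ χ : PontryaginDual A,
      (∀ a ∈ C, nrm (χ a) < δ) → χ ∈ W := by
  rw [isInducing_toC.nhds_eq_comap, mem_comap] at hW
  obtain ⟨W', hW', hsub⟩ := hW
  have h1 : toC (1 : PontryaginDual A) = ContinuousMap.const A 1 := rfl
  rw [h1] at hW'
  obtain ⟨⟨C, δ⟩, ⟨hC, hδ⟩, h⟩ := (hasBasis_nrm.nhds_continuousMapConst (X := A)).mem_iff.1 hW'
  exact ⟨C, hC, δ, hδ, fun χ hχ => hsub (h fun a ha => hχ a ha)⟩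

lemma dual_mem_nhds_one {C : Set A} (hC : IsCompact C) {δ : ℝ} (hδ : 0 < δ) :
    {χ : PontryaginDual A | ∀ a ∈ C, nrm (χ a) < δ} ∈ 𝓝 (1 : PontryaginDual A) := by
  rw [isInducing_toC.nhds_eq_comap, mem_comap]
  have h1 : toC (1 : PontryaginDual A) = ContinuousMap.const A 1 := rfl
  rw [h1]
  refine ⟨{f | Set.MapsTo f C {z | nrm z < δ}}, ?_, fun χ hχ => hχ⟩
  exact (hasBasis_nrm.nhds_continuousMapConst (X := A)).mem_of_mem (i := (C, δ)) ⟨hC, hδ⟩

/-- A compact set of characters is equicontinuous along sequences converging to one. -/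
lemma compact_dual_null [T2Space A] {K : Set (PontryaginDual A)} (hK : IsCompact K) {a : ℕ → A}
    (ha : Tendsto a atTop (𝓝 1)) {ε : ℝ} (hε : 0 < ε) :
    ∃ j₀, ∀ j ≥ j₀, ∀ χ ∈ K, nrm (χ (a j)) < ε := by
  have hC : IsCompact (insert 1 (Set.range a)) := ha.isCompact_insert_range
  let o : (insert 1 (Set.range a) : Set A) := ⟨1, Set.mem_insert _ _⟩
  have hcont := continuous_nrm.comp (continuous_eval_compact hC)
  have hopen : IsOpen {p : PontryaginDual A × (insert 1 (Set.range a) : Set A) |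
      nrm (p.1 (p.2 : A)) < ε} := isOpen_lt hcont continuous_const
  obtain ⟨u, v, hu, hv, hKu, hv1, huv⟩ := generalized_tube_lemma hK
    (isCompact_singleton (x := o)) hopen (by
      rintro ⟨χ, b⟩ ⟨_, hb⟩
      simp only [Set.mem_singleton_iff] at hb
      subst hb
      simp only [Set.mem_ofPred_eq, o]
      rw [map_one, nrm_one]
      exact hε)
  have h1 : Tendsto (fun j => (⟨a j, Set.mem_insert_of_mem _ ⟨j, rfl⟩⟩ :
      (insert 1 (Set.range a) : Set A))) atTop (𝓝 o) := by
    rw [tendsto_subtype_rng]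
    exact ha
  have h2 := h1 (hv.mem_nhds (hv1 rfl))
  obtain ⟨j₀, hj₀⟩ := eventually_atTop.1 h2
  refine ⟨j₀, fun j hj χ hχ => ?_⟩
  have h3 : (χ, (⟨a j, Set.mem_insert_of_mem _ ⟨j, rfl⟩⟩ :
      (insert 1 (Set.range a) : Set A))) ∈ u ×ˢ v := ⟨hKu hχ, hj₀ j hj⟩
  exact huv h3

end

end Pool.Agent.Lib.MP_76381c_al
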