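import Mathlib
import Pool.Agent.Lib.MP_76381c_al.Defs

set_option autoImplicit false

open Topology Filter Real

namespace Pool.Agent.Lib.MP_76381c_al

/-- The pairing of a real function with a finitely supported integer function. -/
noncomputable def pair (u : S → ℝ) (a : S →₀ ℤ) : ℝ := a.sum fun s n => (n : ℝ) * u s

lemma pair_add (u : S → ℝ) (a b : S →₀ ℤ) : pair u (a + b) = pair u a + pair u b := by
  classical
  unfold pair
  rw [Finsupp.sum_add_index']
  · intro s; simp
  · intro s m n; push_cast; ring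

lemma pair_neg (u : S → ℝ) (a : S →₀ ℤ) : pair u (-a) = - pair u a := by
  have h := pair_add u a (-a)
  have h0 : pair u 0 = 0 := by simp [pair]
  rw [add_neg_cancel, h0] at h
  linarith

lemma pair_sub (u : S → ℝ) (a b : S →₀ ℤ) : pair u (a - b) = pair u a - pair u b := by
  rw [sub_eq_add_neg, pair_add, pair_neg, sub_eq_add_neg]

lemma pair_zero (u : S → ℝ) : pair u 0 = 0 := by simp [pair]

lemma pair_add_left (u v : S → ℝ) (a : S →₀ ℤ) :
    pair (fun s => u s + v s) a = pair u a + pair v a := by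
  unfold pair
  rw [Finsupp.sum, Finsupp.sum, Finsupp.sum, ← Finset.sum_add_distrib]
  exact Finset.sum_congr rfl fun s _ => by ring

lemma pair_sub_left (u v : S → ℝ) (a : S →₀ ℤ) :
    pair (fun s => u s - v s) a = pair u a - pair v a := by
  unfold pair
  rw [Finsupp.sum, Finsupp.sum, Finsupp.sum, ← Finset.sum_sub_distrib]
  exact Finset.sum_congr rfl fun s _ => by ring

lemma pair_smul_left (c : ℝ) (u : S → ℝ) (a : S →₀ ℤ) :
    pair (fun s => c * u s) a = c * pair u a := by
  unfold pair
  rw [Finsupp.sum, Finsupp.sum, Finset.mul_sum]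
  exact Finset.sum_congr rfl fun s _ => by ring

lemma pair_single (u : S → ℝ) (s : S) (n : ℤ) : pair u (Finsupp.single s n) = n * u s := by
  unfold pair
  rw [Finsupp.sum_single_index (by simp)]

lemma pair_congr {u v : S → ℝ} {a : S →₀ ℤ} (h : ∀ s ∈ a.support, u s = v s) :
    pair u a = pair v a := by
  unfold pair
  refine Finset.sum_congr rfl fun s hs => ?_
  simp only [h s hs]

/-- The sum of the absolute values of the coefficients. -/
noncomputable def l1 (a : S →₀ ℤ) : ℝ := a.sum fun _ n => |(n : ℝ)|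

lemma l1_nonneg (a : S →₀ ℤ) : 0 ≤ l1 a := Finset.sum_nonneg fun _ _ => abs_nonneg _

lemma abs_pair_le {u : S → ℝ} {a : S →₀ ℤ} {M : ℝ} (h : ∀ s ∈ a.support, |u s| ≤ M) :
    |pair u a| ≤ M * l1 a := by
  unfold pair l1
  rw [Finsupp.sum, Finsupp.sum, Finset.mul_sum]
  refine (Finset.abs_sum_le_sum_abs _ _).trans (Finset.sum_le_sum fun s hs => ?_)
  rw [abs_mul, mul_comm]
  exact mul_le_mul_of_nonneg_right (h s hs) (abs_nonneg _)

lemma l1_eq_sum {a : S →₀ ℤ} {F : Finset S} (h : a.support ⊆ F) :
    l1 a = ∑ s ∈ F, |(a s : ℝ)| := by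
  unfold l1
  exact Finsupp.sum_of_support_subset _ h _ (by simp)

lemma l1_le_add (a b : S →₀ ℤ) : l1 a ≤ l1 (a - b) + l1 b := by
  classical
  have h1 : a.support ⊆ a.support ∪ b.support := Finset.subset_union_left
  have h2 : b.support ⊆ a.support ∪ b.support := Finset.subset_union_right
  have h3 : (a - b).support ⊆ a.support ∪ b.support := Finsupp.support_sub
  rw [l1_eq_sum h1, l1_eq_sum h2, l1_eq_sum h3, ← Finset.sum_add_distrib]
  refine Finset.sum_le_sum fun s _ => ?_
  rw [Finsupp.sub_apply]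
  push_cast
  calc |(a s : ℝ)| = |((a s : ℝ) - b s) + b s| := by ring_nf
    _ ≤ _ := abs_add_le _ _

/-- The perturbation functions. -/
noncomputable def qq : Y → S → ℝ := exists_q.choose

lemma FF_qq (x : Y) : FF (qq x) := exists_q.choose_spec.1 x

lemma qq_dense {f : S → ℝ} (hf : FF f) (x₀ : Y) (n : ℕ) :
    ∃ x, (∀ k < n, x k = x₀ k) ∧ qq x = f := exists_q.choose_spec.2.1 f hf x₀ n

lemma qq_baire (Z : ℕ → Set Y) (hZ : ∀ m, IsClosed (Z m))
    (h : ∀ x, qq x = 0 → ∃ m, x ∈ Z m) : ∃ m, (interior (Z m)).Nonempty :=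
  exists_q.choose_spec.2.2 Z hZ h

/-- The functions defining the topology. -/
noncomputable def TT (x : Y) : S → ℝ := fun s => phi x s + qq x s

lemma pair_TT (x : Y) (a : S →₀ ℤ) : pair (TT x) a = pair (phi x) a + pair (qq x) a :=
  pair_add_left _ _ _

lemma continuous_phi (s : S) : Continuous fun x : Y => phi x s := by
  rw [continuous_iff_continuousAt]
  intro x
  refine tendsto_const_nhds.congr' ?_
  filter_upwards [eventually_agree (tendsto_id (x := 𝓝 x)) s.1.length] with y hy
  exact phi_congr fun k hk => (hy k hk).symm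

lemma continuous_pair_phi (a : S →₀ ℤ) : Continuous fun x : Y => pair (phi x) a := by
  unfold pair
  exact continuous_finsetSum _ fun s _ => (continuous_phi s).const_mul _

/-- Convergence along all `TT x` implies convergence along the class. -/
lemma tendsto_pair_of_null {b : ℕ → S →₀ ℤ}
    (hb : ∀ x, Tendsto (fun n => Circle.exp (pair (TT x) (b n))) atTop (𝓝 1))
    {f : S → ℝ} (hf : FF f) : Tendsto (fun n => pair f (b n)) atTop (𝓝 0) := by
  suffices h : ∀ g : S → ℝ, FF g → Tendsto (fun n => Circle.exp (pair g (b n))) atTop (𝓝 1) by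
    refine tendsto_zero_of_exp fun c => ?_
    have := h _ (hf.smul c)
    simpa only [pair_smul_left] using this
  intro g hg
  rw [tendsto_nrm_iff, Metric.tendsto_atTop]
  intro ε hε
  let Z : ℕ → Set Y := fun m => {x | ∀ n ≥ m, nrm (Circle.exp (pair (phi x) (b n))) ≤ ε / 3}
  have hZ : ∀ m, IsClosed (Z m) := by
    intro m
    have : Z m = ⋂ (n : ℕ) (_ : n ≥ m), {x | nrm (Circle.exp (pair (phi x) (b n))) ≤ ε / 3} := by
      ext x
      simp [Z]
    rw [this]
    refine isClosed_iInter fun n => isClosed_iInter fun _ => ?_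
    exact isClosed_le (continuous_nrm.comp (Circle.exp.continuous.comp (continuous_pair_phi _)))
      continuous_const
  obtain ⟨m, x₀, hx₀⟩ := qq_baire Z hZ (by
    intro x hx
    have h1 := tendsto_nrm_iff.1 (hb x)
    have h2 : ∀ᶠ n in atTop, nrm (Circle.exp (pair (TT x) (b n))) < ε / 3 :=
      h1.eventually_lt_const (by positivity)
    obtain ⟨m, hm⟩ := eventually_atTop.1 h2
    refine ⟨m, fun n hn => ?_⟩
    have h3 := hm n hn
    rw [pair_TT, hx] at h3
    have h4 : pair 0 (b n) = 0 := by simp [pair]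
    rw [h4, add_zero] at h3
    exact h3.le)
  obtain ⟨n₀, hn₀⟩ := exists_cyl isOpen_interior hx₀
  obtain ⟨x, hx1, hx2⟩ := qq_dense hg x₀ n₀
  have hxZ : x ∈ Z m := interior_subset (hn₀ x hx1)
  have h1 := tendsto_nrm_iff.1 (hb x)
  have h2 : ∀ᶠ n in atTop, nrm (Circle.exp (pair (TT x) (b n))) < ε / 3 :=
    h1.eventually_lt_const (by positivity)
  obtain ⟨m', hm'⟩ := eventually_atTop.1 h2
  refine ⟨max m m', fun n hn => ?_⟩
  have h3 := hm' n ((le_max_right _ _).trans hn)
  have h4 := hxZ n ((le_max_left _ _).trans hn)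
  rw [Real.dist_eq, sub_zero, abs_of_nonneg (nrm_nonneg _)]
  have h5 : Circle.exp (pair g (b n)) =
      Circle.exp (pair (TT x) (b n)) / Circle.exp (pair (phi x) (b n)) := by
    rw [pair_TT, hx2, Circle.exp_add]
    simp
  rw [h5]
  refine (nrm_div_le _ _).trans_lt (by linarith)

/-! ### The uniform bound -/

/-- A discrete copy of `S`. -/
def SD : Type := S

instance : TopologicalSpace SD := ⊥
instance : DiscreteTopology SD := ⟨rfl⟩

open scoped ZeroAtInfty

lemma tendsto_cofinite_of_C0 (u : C₀(SD, ℝ)) : Tendsto (fun s : S => u s) cofinite (𝓝 0) := by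
  have := u.zero_at_infty'
  rw [cocompact_eq_cofinite] at this
  exact this

lemma abs_le_norm_C0 (u : C₀(SD, ℝ)) (s : S) : |u s| ≤ ‖u‖ := by
  have := u.toBCF.norm_coe_le_norm s
  rw [ZeroAtInftyContinuousMap.norm_toBCF_eq_norm] at this
  exact this

/-- The functional on the Banach space given by a finitely supported function. -/
noncomputable def functional (b : S →₀ ℤ) : C₀(SD, ℝ) →L[ℝ] ℝ :=
  LinearMap.mkContinuous
    { toFun := fun u => pair (fun s => u s) b
      map_add' := fun u v => pair_add_left _ _ _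
      map_smul' := fun c u => pair_smul_left _ _ _ } (l1 b) (by
    intro u
    rw [Real.norm_eq_abs, mul_comm]
    exact abs_pair_le fun s _ => abs_le_norm_C0 u s)

lemma functional_apply (b : S →₀ ℤ) (u : C₀(SD, ℝ)) :
    functional b u = pair (fun s => u s) b := rfl

/-- A function with finite support as an element of the Banach space. -/
noncomputable def finC0 (u : S → ℝ) (hu : Tendsto u cofinite (𝓝 0)) : C₀(SD, ℝ) where
  toFun := u
  continuous_toFun := continuous_of_discreteTopology
  zero_at_infty' := by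
    rw [cocompact_eq_cofinite]
    exact hu

lemma finC0_apply (u : S → ℝ) (hu : Tendsto u cofinite (𝓝 0)) (s : S) : finC0 u hu s = u s := rfl

lemma norm_finC0_le {u : S → ℝ} (hu : Tendsto u cofinite (𝓝 0)) {M : ℝ} (hM : 0 ≤ M)
    (h : ∀ s, |u s| ≤ M) : ‖finC0 u hu‖ ≤ M := by
  rw [← ZeroAtInftyContinuousMap.norm_toBCF_eq_norm, BoundedContinuousFunction.norm_le hM]
  exact h

lemma tendsto_cofinite_of_finite {u : S → ℝ} {F : Finset S} (h : ∀ s ∉ F, u s = 0) :
    Tendsto u cofinite (𝓝 0) := by
  refine tendsto_const_nhds.congr' ?_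
  have : ∀ᶠ s in cofinite, s ∉ F := F.finite_toSet.compl_mem_cofinite
  filter_upwards [this] with s hs
  exact (h s hs).symm

lemma l1_bound_of_null {b : ℕ → S →₀ ℤ}
    (hb : ∀ f, FF f → Tendsto (fun n => pair f (b n)) atTop (𝓝 0)) :
    ∃ M, ∃ m : ℕ, ∀ n ≥ m, l1 (b n) ≤ M := by
  obtain ⟨ε, hε, m, hm⟩ := bound_of_exp_tendsto (fun n => functional (b n)) (by
    intro u
    have h1 := hb (fun s => u s) (FF_of_cofinite (tendsto_cofinite_of_C0 u))
    have h2 := (Circle.exp.continuous.tendsto 0).comp h1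
    rw [Circle.exp_zero] at h2
    exact h2)
  refine ⟨4 / ε, m, fun n hn => ?_⟩
  let u : S → ℝ := fun s => (ε / 2) * SignType.sign ((b n) s : ℝ)
  have hu0 : ∀ s ∉ (b n).support, u s = 0 := by
    intro s hs
    rw [Finsupp.notMem_support_iff] at hs
    simp [u, hs]
  have hu : Tendsto u cofinite (𝓝 0) := tendsto_cofinite_of_finite hu0
  have hu1 : ∀ s, |u s| ≤ ε / 2 := by
    intro s
    simp only [u]
    rw [abs_mul, abs_of_pos (by positivity : 0 < ε / 2)]
    have : |((SignType.sign ((b n) s : ℝ) : SignType) : ℝ)| ≤ 1 := by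
      rcases lt_trichotomy ((b n) s : ℝ) 0 with h | h | h
      · simp [sign_neg h]
      · simp [h]
      · simp [sign_pos h]
    nlinarith
  have h1 := hm n hn (finC0 u hu) ((norm_finC0_le hu (by positivity) hu1).trans_lt (by linarith))
  rw [functional_apply] at h1
  have h2 : pair (fun s => finC0 u hu s) (b n) = (ε / 2) * l1 (b n) := by
    change pair u (b n) = _
    unfold pair l1
    rw [Finsupp.sum, Finsupp.sum, Finset.mul_sum]
    refine Finset.sum_congr rfl fun s _ => ?_
    simp only [u]
    rw [← self_mul_sign ((b n) s : ℝ)]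
    ring
  rw [h2, abs_of_nonneg (mul_nonneg (by positivity) (l1_nonneg _))] at h1
  rw [le_div_iff₀ hε]
  linarith

/-- Every coefficient of a null sequence is eventually zero. -/
lemma eventually_zero_of_null {b : ℕ → S →₀ ℤ}
    (hb : ∀ f, FF f → Tendsto (fun n => pair f (b n)) atTop (𝓝 0)) (s : S) :
    {k | b k s ≠ 0}.Finite := by
  classical
  have hs : Tendsto (fun t : S => if t = s then (1 : ℝ) else 0) cofinite (𝓝 0) :=
    tendsto_cofinite_of_finite (F := {s}) (fun t ht => by
      rw [Finset.mem_singleton] at ht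
      simp [ht])
  have h1 := hb _ (FF_of_cofinite hs)
  have h2 : ∀ k, pair (fun t : S => if t = s then (1 : ℝ) else 0) (b k) = (b k s : ℝ) := by
    intro k
    unfold pair
    simp only [mul_ite, mul_one, mul_zero]
    rw [Finsupp.sum, Finset.sum_ite_eq']
    split_ifs with h
    · rfl
    · rw [Finsupp.notMem_support_iff] at h
      simp [h]
  simp_rw [h2] at h1
  have h3 : ∀ᶠ k in atTop, |(b k s : ℝ)| < 1 := by
    have := h1.abs
    rw [abs_zero] at this
    exact this.eventually_lt_const one_pos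
  have h4 : ∀ᶠ k in atTop, b k s = 0 := by
    filter_upwards [h3] with k hk
    have : |b k s| < 1 := by exact_mod_cast hk
    exact Int.abs_lt_one_iff.1 this
  rw [← Nat.cofinite_eq_atTop] at h4
  exact h4

/-- The supports of a null sequence meet every branch in a finite set. -/
lemma branch_finite_of_null {b : ℕ → S →₀ ℤ}
    (hb : ∀ f, FF f → Tendsto (fun n => pair f (b n)) atTop (𝓝 0)) (x : Y) (i : ℕ) :
    {n | ∃ k, b k (node x n i) ≠ 0}.Finite := by
  classical
  by_contra hinf
  have hinf' : {n | ∃ k, b k (node x n i) ≠ 0}.Infinite := hinf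
  have hbk : ∀ k, {n | b k (node x n i) ≠ 0}.Finite := by
    intro k
    have h1 : ((b k).support : Set S).Finite := (b k).support.finite_toSet
    refine (h1.preimage ((node_injective x i).injOn)).subset ?_
    intro n hn
    simpa using hn
  -- choose pairs `(n, k)`
  let r : ℕ × ℕ → ℕ × ℕ → Prop := fun p r =>
    (b r.2 (node x p.1 i) = 0 ∧ b p.2 (node x r.1 i) = 0) ∧ p.1 ≠ r.1 ∧ p.2 ≠ r.2
  have : Std.Symm r := ⟨fun p q h => ⟨⟨h.1.2, h.1.1⟩, h.2.1.symm, h.2.2.symm⟩⟩
  obtain ⟨f, hf1, hf2⟩ := exists_seq_of_forall_finset_exists'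
    (fun p : ℕ × ℕ => b p.2 (node x p.1 i) ≠ 0) r
    (by
      intro F hF
      -- the bad second coordinates
      let K : Set ℕ := ⋃ p ∈ F, {k | b k (node x p.1 i) ≠ 0}
      have hK : K.Finite := Set.Finite.biUnion F.finite_toSet
        fun p _ => eventually_zero_of_null hb _
      let N : Set ℕ := (⋃ p ∈ F, {n | b p.2 (node x n i) ≠ 0}) ∪
        ⋃ k ∈ K, {n | b k (node x n i) ≠ 0}
      have hN : N.Finite := (Set.Finite.biUnion F.finite_toSet fun p _ => hbk _).union
        (hK.biUnion fun k _ => hbk k)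
      obtain ⟨n, hn1, hn2⟩ := hinf'.exists_notMem_finite hN
      obtain ⟨k, hk⟩ := hn1
      have hkK : k ∉ K := by
        intro h
        exact hn2 (Or.inr (Set.mem_biUnion h hk))
      refine ⟨(n, k), hk, fun p hp => ?_⟩
      have e1 : b k (node x p.1 i) = 0 := by
        by_contra h
        exact hkK (Set.mem_biUnion (Finset.mem_coe.2 hp) h)
      have e2 : b p.2 (node x n i) = 0 := by
        by_contra h
        exact hn2 (Or.inl (Set.mem_biUnion (Finset.mem_coe.2 hp) h))
      refine ⟨⟨e1, e2⟩, ?_, ?_⟩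
      · intro h
        have h3 := hF p hp
        simp only at h
        rw [h] at h3
        exact h3 e2
      · intro h
        have h3 := hF p hp
        simp only at h
        rw [h] at h3
        exact h3 e1)
  -- one parity class is small for the ultrafilter
  have hinj1 : Function.Injective fun l => (f l).1 := by
    intro l l' h
    by_contra hne
    exact (hf2 hne).2.1 h
  have hinj2 : Function.Injective fun l => (f l).2 := by
    intro l l' h
    by_contra hne
    exact (hf2 hne).2.2 h
  obtain ⟨p, hp⟩ : ∃ p : ℕ, {n | ∃ l, n = (f (2 * l + p)).1} ∉ hyperfilter ℕ := by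
    by_contra hcon
    push Not at hcon
    have h0 := hcon 0
    have h1 := hcon 1
    have h2 := Filter.inter_mem h0 h1
    have h3 : ({n | ∃ l, n = (f (2 * l + 0)).1} ∩ {n | ∃ l, n = (f (2 * l + 1)).1} : Set ℕ) = ∅ := by
      ext n
      simp only [Set.mem_inter_iff, Set.mem_ofPred_eq, Set.mem_empty_iff_false, iff_false]
      rintro ⟨⟨l, hl⟩, l', hl'⟩
      have := hinj1 (hl.symm.trans hl')
      omega
    rw [h3] at h2
    exact Filter.empty_notMem _ h2
  have h1 := hb _ (FF_branch x i _ hp)
  have h2 : Tendsto (fun l => (f (2 * l + p)).2) atTop atTop := by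
    refine hinj2.nat_tendsto_atTop.comp ?_
    exact tendsto_atTop_mono (fun l => (by omega : l ≤ 2 * l + p)) tendsto_id
  have h3 := h1.comp h2
  have h4 : ∀ l, 1 ≤ |pair (Set.indicator {s | ∃ n ∈ {n | ∃ l, n = (f (2 * l + p)).1},
      s = node x n i} 1) (b (f (2 * l + p)).2)| := by
    intro l
    have e1 : pair (Set.indicator {s | ∃ n ∈ {n | ∃ l, n = (f (2 * l + p)).1},
        s = node x n i} 1) (b (f (2 * l + p)).2) =
        (b (f (2 * l + p)).2 (node x (f (2 * l + p)).1 i) : ℝ) := by
      unfold pair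
      rw [Finsupp.sum, Finset.sum_eq_single (node x (f (2 * l + p)).1 i)]
      · rw [Set.indicator_of_mem]
        · simp
        · exact ⟨_, ⟨l, rfl⟩, rfl⟩
      · intro s _ hs
        by_cases hs' : s ∈ {s | ∃ n ∈ {n | ∃ l, n = (f (2 * l + p)).1}, s = node x n i}
        · obtain ⟨n, ⟨l', rfl⟩, rfl⟩ := hs'
          have hne : 2 * l' + p ≠ 2 * l + p := by
            intro h
            rw [h] at hs
            exact hs rfl
          have := (hf2 hne).1.1
          rw [this]
          simp
        · rw [Set.indicator_of_notMem hs']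
          simp
      · intro h
        rw [Finsupp.notMem_support_iff] at h
        rw [h]
        simp
    rw [e1]
    have e2 := hf1 (2 * l + p)
    have e3 : 1 ≤ |b (f (2 * l + p)).2 (node x (f (2 * l + p)).1 i)| := Int.one_le_abs e2
    exact_mod_cast e3
  have h5 := h3.abs
  rw [abs_zero] at h5
  have h6 := ge_of_tendsto' h5 h4
  norm_num at h6

end Pool.Agent.Lib.MP_76381c_al
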