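import Mathlib
import Pool.Agent.Lib.MP_76381c_al.Null

set_option autoImplicit false

open Topology Filter Real

namespace Pool.Agent.Lib.MP_76381c_al

/-- The group. -/
def GG : Type := Multiplicative (S →₀ ℤ)

noncomputable instance : CommGroup GG := inferInstanceAs (CommGroup (Multiplicative (S →₀ ℤ)))
instance : Countable GG := inferInstanceAs (Countable (S →₀ ℤ))
instance : Infinite GG := inferInstanceAs (Infinite (S →₀ ℤ))

/-- The vector of coefficients. -/
def vec (g : GG) : S →₀ ℤ := Multiplicative.toAdd g

lemma vec_injective : Function.Injective vec := fun _ _ h => h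

lemma vec_mul (g h : GG) : vec (g * h) = vec g + vec h := rfl
lemma vec_one : vec 1 = 0 := rfl
lemma vec_div (g h : GG) : vec (g / h) = vec g - vec h := rfl

/-- The inverse of `vec`. -/
def unvec (a : S →₀ ℤ) : GG := Multiplicative.ofAdd a

lemma vec_unvec (a : S →₀ ℤ) : vec (unvec a) = a := rfl

/-- The character given by a real function. -/
noncomputable def ch (u : S → ℝ) : GG →* Circle where
  toFun g := Circle.exp (pair u (vec g))
  map_one' := by rw [vec_one, pair_zero, Circle.exp_zero]
  map_mul' g h := by rw [vec_mul, pair_add, Circle.exp_add]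

lemma ch_apply (u : S → ℝ) (g : GG) : ch u g = Circle.exp (pair u (vec g)) := rfl

/-- The characters defining the topology. -/
noncomputable def tt (x : Y) : GG →* Circle := ch (TT x)

lemma tt_apply (x : Y) (g : GG) : tt x g = Circle.exp (pair (TT x) (vec g)) := rfl

/-- The map to the product. -/
noncomputable def tmap : GG →* (Y → Circle) where
  toFun g x := tt x g
  map_one' := by ext x; simp
  map_mul' g h := by ext x; simp

noncomputable instance : TopologicalSpace GG := TopologicalSpace.induced tmap inferInstance

lemma isInducing_tmap : IsInducing tmap := ⟨rfl⟩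

instance : IsTopologicalGroup GG := topologicalGroup_induced tmap

lemma continuous_tt (x : Y) : Continuous (tt x) :=
  (continuous_apply x).comp isInducing_tmap.continuous

lemma tendsto_GG_iff {ι : Type*} {l : Filter ι} {f : ι → GG} {g : GG} :
    Tendsto f l (𝓝 g) ↔ ∀ x, Tendsto (fun i => tt x (f i)) l (𝓝 (tt x g)) := by
  rw [isInducing_tmap.tendsto_nhds_iff, tendsto_pi_nhds]
  rfl

lemma eq_one_of_tt {g : GG} (h : ∀ x, tt x g = 1) : g = 1 := by
  apply vec_injective
  rw [vec_one]
  ext s
  have h1 := eventually_zero_of_null (b := fun _ => vec g) (fun f hf =>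
    tendsto_pair_of_null (b := fun _ => vec g) (fun x => by
      have := h x
      rw [tt_apply] at this
      simp only [this]
      exact tendsto_const_nhds) hf) s
  by_contra hne
  have : {k : ℕ | vec g s ≠ 0} = Set.univ := by
    ext k
    simpa using hne
  rw [this] at h1
  exact Set.infinite_univ h1

lemma tmap_injective : Function.Injective tmap := by
  rw [injective_iff_map_eq_one]
  intro g hg
  exact eq_one_of_tt fun x => congrFun hg x

instance : T2Space GG :=
  (⟨isInducing_tmap, tmap_injective⟩ : IsEmbedding tmap).t2Space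

/-- Compact subsets are sequentially compact. -/
lemma exists_subseq {C : Set GG} (hC : IsCompact C) (a : ℕ → GG) (ha : ∀ n, a n ∈ C) :
    ∃ g ∈ C, ∃ φ : ℕ → ℕ, StrictMono φ ∧ Tendsto (a ∘ φ) atTop (𝓝 g) := by
  classical
  have h1 : ∀ g : GG, ∃ x : Y, g ≠ 1 → tt x g ≠ 1 := by
    intro g
    by_cases hg : g = 1
    · exact ⟨fun _ => 0, fun h => absurd hg h⟩
    · by_contra hcon
      push Not at hcon
      exact hg (eq_one_of_tt fun x => (hcon x).2)
  choose c hc using h1
  let ρ : C → (GG → Circle) := fun h g => tt (c g) h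
  have hρc : Continuous ρ := by
    refine continuous_pi fun g => ?_
    exact (continuous_tt _).comp continuous_subtype_val
  have hρi : Function.Injective ρ := by
    intro h h' hh
    by_contra hne
    have hne' : (h : GG) / h' ≠ 1 := by
      rw [Ne, div_eq_one]
      exact fun h3 => hne (Subtype.ext h3)
    apply hc _ hne'
    have := congrFun hh ((h : GG) / h')
    simp only [ρ] at this
    rw [map_div, this, div_self']
  have : CompactSpace C := isCompact_iff_compactSpace.1 hC
  have hemb := hρc.isClosedEmbedding hρi
  have : FirstCountableTopology C := hemb.isInducing.firstCountableTopology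
  obtain ⟨g, φ, hφ, hlim⟩ := SeqCompactSpace.tendsto_subseq (fun n => (⟨a n, ha n⟩ : C))
  refine ⟨g, g.2, φ, hφ, ?_⟩
  exact (continuous_subtype_val.tendsto g).comp hlim

/-- Differences along a convergent sequence are null for the class. -/
lemma null_of_tendsto {a : ℕ → GG} {g : GG} (h : Tendsto a atTop (𝓝 g)) {f : S → ℝ}
    (hf : FF f) : Tendsto (fun n => pair f (vec (a n) - vec g)) atTop (𝓝 0) := by
  refine tendsto_pair_of_null (b := fun n => vec (a n) - vec g) (fun x => ?_) hf
  have h1 := (tendsto_GG_iff.1 h x).div_const' (tt x g)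
  rw [div_self'] at h1
  refine h1.congr fun n => ?_
  rw [← map_div, tt_apply, vec_div]

lemma compact_l1_bound {C : Set GG} (hC : IsCompact C) : ∃ N, ∀ g ∈ C, l1 (vec g) ≤ N := by
  by_contra hcon
  push Not at hcon
  choose a ha1 ha2 using fun n : ℕ => hcon n
  obtain ⟨g, hg, φ, hφ, hlim⟩ := exists_subseq hC a ha1
  obtain ⟨M, m, hM⟩ := l1_bound_of_null (b := fun n => vec (a (φ n)) - vec g)
    (fun f hf => null_of_tendsto hlim hf)
  obtain ⟨k, hk⟩ := exists_nat_gt (M + l1 (vec g))
  have h1 := hM (max m k) (le_max_left _ _)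
  have h2 := l1_le_add (vec (a (φ (max m k)))) (vec g)
  have h3 := ha2 (φ (max m k))
  have h4 : (k : ℝ) ≤ φ (max m k) := by
    exact_mod_cast (le_max_right m k).trans (hφ.id_le _)
  linarith

lemma compact_branch {C : Set GG} (hC : IsCompact C) (x : Y) (i : ℕ) :
    {n | ∃ g ∈ C, vec g (node x n i) ≠ 0}.Finite := by
  by_contra hinf
  have hinf' : {n | ∃ g ∈ C, vec g (node x n i) ≠ 0}.Infinite := hinf
  let e := hinf'.natEmbedding
  choose a ha1 ha2 using fun k => (e k).2
  obtain ⟨g, hg, φ, hφ, hlim⟩ := exists_subseq hC a ha1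
  have h1 := branch_finite_of_null (b := fun n => vec (a (φ n)) - vec g)
    (fun f hf => null_of_tendsto hlim hf) x i
  have h2 : {n | vec g (node x n i) ≠ 0}.Finite := by
    have h3 : ((vec g).support : Set S).Finite := (vec g).support.finite_toSet
    refine (h3.preimage ((node_injective x i).injOn)).subset ?_
    intro n hn
    simpa using hn
  have h3 : Set.range (fun k => (e (φ k) : ℕ)) ⊆
      {n | ∃ k, (vec (a (φ k)) - vec g) (node x n i) ≠ 0} ∪ {n | vec g (node x n i) ≠ 0} := by
    rintro _ ⟨k, rfl⟩
    by_cases h : vec g (node x (e (φ k)) i) = 0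
    · left
      refine ⟨k, ?_⟩
      rw [Finsupp.sub_apply, h, sub_zero]
      exact ha2 _
    · right
      exact h
  have h4 : (Set.range (fun k => (e (φ k) : ℕ))).Infinite := by
    refine Set.infinite_range_of_injective ?_
    intro k k' hk
    exact hφ.injective (e.injective (Subtype.ext hk))
  exact h4 ((h1.union h2).subset h3)

end Pool.Agent.Lib.MP_76381c_al
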