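import Mathlib
import Pool.Agent.Lib.MP_76381c_al.Top
import Pool.Agent.Lib.MP_76381c_al.DualGroup
import Pool.Agent.Lib.MP_76381c_al.DualTop

set_option autoImplicit false

open Topology Filter Real

namespace Pool.Agent.Lib.MP_76381c_al

lemma exists_coeffs (χ : PontryaginDual GG) :
    ∃ c : Y →₀ ℤ, ∀ g, χ g = c.prod fun x n => tt x g ^ n := by
  refine exists_finsupp_of_continuous tt (χ : GG →* Circle) ?_
  intro ε hε
  have h1 : {g : GG | nrm (χ g) < ε} ∈ 𝓝 (1 : GG) := by
    have hc : Continuous fun g : GG => nrm (χ g) :=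
      continuous_nrm.comp (map_continuous χ)
    have h2 := hc.continuousAt (x := (1 : GG)).preimage_mem_nhds (t := Set.Iio ε) (by
      rw [map_one, nrm_one]
      exact Iio_mem_nhds hε)
    exact h2
  rw [isInducing_tmap.nhds_eq_comap, mem_comap, map_one] at h1
  obtain ⟨U, hU, hsub⟩ := h1
  exact ⟨U, hU, fun g hg => hsub hg⟩

/-- The coefficients of a character. -/
noncomputable def coeff (χ : PontryaginDual GG) : Y →₀ ℤ := (exists_coeffs χ).choose

lemma coeff_spec (χ : PontryaginDual GG) (g : GG) :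
    χ g = (coeff χ).prod fun x n => tt x g ^ n := (exists_coeffs χ).choose_spec g

lemma coeff_injective : Function.Injective coeff := by
  intro χ χ' h
  ext g
  rw [coeff_spec, coeff_spec, h]

/-- Basis elements. -/
noncomputable def base (s : S) : GG := unvec (Finsupp.single s 1)

lemma tt_base (x : Y) (s : S) : tt x (base s) = Circle.exp (TT x s) := by
  rw [tt_apply, base, vec_unvec, pair_single]
  simp

lemma tendsto_base {s : ℕ → S} (hs : NullSeq s) :
    Tendsto (fun j => base (s j)) atTop (𝓝 1) := by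
  rw [tendsto_GG_iff]
  intro x
  rw [map_one]
  have h1 : Tendsto (fun j => TT x (s j)) atTop (𝓝 0) := by
    have := (hs.tendsto_phi x).add ((FF_qq x).1 s hs)
    rw [add_zero] at this
    exact this
  have h2 := (Circle.exp.continuous.tendsto 0).comp h1
  rw [Circle.exp_zero] at h2
  refine h2.congr fun j => ?_
  rw [tt_base]
  rfl

lemma prod_base (c : Y →₀ ℤ) (s : S) :
    (c.prod fun x n => tt x (base s) ^ n) = Circle.exp (∑ x ∈ c.support, (c x : ℝ) * TT x s) := by
  classical
  rw [Finsupp.prod]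
  induction c.support using Finset.induction_on with
  | empty => simp
  | insert a t ha ih =>
    rw [Finset.prod_insert ha, Finset.sum_insert ha, ih, Circle.exp_add, tt_base,
      Circle.exp_intCast_mul]

/-- The weight index attached to an integer. -/
def idx (c : ℤ) : ℕ := Nat.log 2 c.natAbs + 1

lemma idx_spec {c : ℤ} (hc : c ≠ 0) : π / 2 ≤ |(c : ℝ) * zz (idx c)| ∧ |(c : ℝ) * zz (idx c)| ≤ π := by
  have hc' : c.natAbs ≠ 0 := Int.natAbs_ne_zero.2 hc
  have h1 : 2 ^ Nat.log 2 c.natAbs ≤ c.natAbs := Nat.pow_log_le_self 2 hc'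
  have h2 : c.natAbs < 2 ^ (Nat.log 2 c.natAbs + 1) := Nat.lt_pow_succ_log_self one_lt_two _
  have h3 : |(c : ℝ)| = (c.natAbs : ℝ) := by
    rw [← Int.cast_abs, Int.abs_eq_natAbs]
    simp
  rw [abs_mul, h3, abs_of_pos (zz_pos _), zz, idx]
  have h1' : (2 : ℝ) ^ Nat.log 2 c.natAbs ≤ c.natAbs := by exact_mod_cast h1
  have h2' : (c.natAbs : ℝ) < 2 ^ (Nat.log 2 c.natAbs + 1) := by exact_mod_cast h2
  have hp : (0 : ℝ) < 2 ^ Nat.log 2 c.natAbs := by positivity
  have hpi := pi_pos
  constructor
  · rw [pow_succ, mul_div_assoc', div_le_div_iff₀ (by norm_num) (by positivity)]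
    nlinarith
  · rw [mul_div_assoc', div_le_iff₀ (by positivity)]
    nlinarith

lemma exists_large (c : Y →₀ ℤ) (x : Y) (hx : c x ≠ 0) (m : ℕ) :
    ∃ n ≥ m, 1 ≤ nrm (c.prod fun y k => tt y (base (node x n (idx (c x)))) ^ k) := by
  classical
  set i := idx (c x) with hi
  -- eventually the other branches are separated from `x`
  have h1 : ∀ᶠ n in (hyperfilter ℕ : Filter ℕ), ∀ y ∈ c.support, y ≠ x →
      phi y (node x n i) = 0 := by
    rw [Filter.eventually_all_finset]
    intro y _
    by_cases hy : y = x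
    · exact Eventually.of_forall fun n h => absurd hy h
    · obtain ⟨k, hk⟩ := Function.ne_iff.1 hy
      have h2 : ∀ᶠ n in (hyperfilter ℕ : Filter ℕ), k < n :=
        Nat.hyperfilter_le_atTop (eventually_gt_atTop k)
      filter_upwards [h2] with n hn _
      exact phi_node_of_ne ⟨k, hn, hk.symm⟩
  have h2 : Tendsto (fun n => ∑ y ∈ c.support, (c y : ℝ) * qq y (node x n i))
      (hyperfilter ℕ) (𝓝 0) := by
    have : Tendsto (fun n => ∑ y ∈ c.support, (c y : ℝ) * qq y (node x n i))
      (hyperfilter ℕ) (𝓝 (∑ y ∈ c.support, (c y : ℝ) * 0)) :=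
      tendsto_finsetSum _ fun y _ => ((FF_qq y).2 x i).const_mul _
    simpa using this
  have h3 : ∀ᶠ n in (hyperfilter ℕ : Filter ℕ),
      |∑ y ∈ c.support, (c y : ℝ) * qq y (node x n i)| < π / 8 := by
    have := h2.abs
    rw [abs_zero] at this
    exact this.eventually_lt_const (by positivity)
  have h4 : ∀ᶠ n in (hyperfilter ℕ : Filter ℕ), m ≤ n :=
    Nat.hyperfilter_le_atTop (eventually_ge_atTop m)
  obtain ⟨n, hn1, hn3, hn4⟩ := (h1.and (h3.and h4)).exists
  refine ⟨n, hn4, ?_⟩
  rw [prod_base]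
  have h5 : ∑ y ∈ c.support, (c y : ℝ) * TT y (node x n i) =
      (c x : ℝ) * zz i + ∑ y ∈ c.support, (c y : ℝ) * qq y (node x n i) := by
    simp only [TT, mul_add, Finset.sum_add_distrib]
    congr 1
    rw [Finset.sum_eq_single x]
    · rw [phi_node_self]
    · intro y hy hyx
      rw [hn1 y hy hyx, mul_zero]
    · intro h
      rw [Finsupp.notMem_support_iff] at h
      exact absurd h hx
  rw [h5, Circle.exp_add]
  obtain ⟨h6, h7⟩ := idx_spec hx
  rw [← hi] at h6 h7
  set r := ∑ y ∈ c.support, (c y : ℝ) * qq y (node x n i) with hr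
  have h8 : nrm (Circle.exp ((c x : ℝ) * zz i)) = |(c x : ℝ) * zz i| := nrm_exp_eq h7
  have h9 : nrm (Circle.exp ((c x : ℝ) * zz i)) ≤
      nrm (Circle.exp ((c x : ℝ) * zz i) * Circle.exp r) + nrm (Circle.exp r) := by
    have e1 : Circle.exp ((c x : ℝ) * zz i) =
        (Circle.exp ((c x : ℝ) * zz i) * Circle.exp r) / Circle.exp r := by simp
    conv_lhs => rw [e1]
    exact nrm_div_le _ _
  have h10 := nrm_exp_le r
  have := pi_gt_three
  linarith

/-- Compact sets of characters are finite. -/
theorem compact_dual_finite {K : Set (PontryaginDual GG)} (hK : IsCompact K) : K.Finite := by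
  classical
  -- the set of branches involved
  let X : Set Y := {x | ∃ χ ∈ K, coeff χ x ≠ 0}
  have hX : X.Finite := by
    by_contra hinf
    obtain ⟨x', -, hx'⟩ := Set.Infinite.exists_accPt_of_subset_isCompact (K := Set.univ) hinf
      isCompact_univ (Set.subset_univ _)
    have h1 : ∀ j : ℕ, ∃ y ∈ X, y ≠ x' ∧ ∀ k < j, y k = x' k := by
      intro j
      rw [accPt_iff_nhds] at hx'
      obtain ⟨y, ⟨hy1, hy2⟩, hy3⟩ := hx' _ ((PiNat.isOpen_cylinder (fun _ : ℕ => Fin 3) x' j).mem_nhds
        (PiNat.self_mem_cylinder x' j))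
      exact ⟨y, hy2, hy3, hy1⟩
    choose x hxX hxne hxagree using h1
    choose χ hχK hχx using hxX
    have h2 : ∀ j, ∃ d, x j d ≠ x' d := fun j => Function.ne_iff.1 (hxne j)
    choose d hd using h2
    choose n hn1 hn2 using fun j => exists_large (coeff (χ j)) (x j) (hχx j) (max j (d j + 1))
    let s : ℕ → S := fun j => node (x j) (n j) (idx (coeff (χ j) (x j)))
    have hs : NullSeq s := by
      intro y i
      by_cases hy : y = x'
      · subst hy
        convert! Set.finite_empty
        ext j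
        simp only [Set.mem_ofPred_eq, Set.mem_empty_iff_false, iff_false]
        rintro ⟨m, hm⟩
        have h3 := (node_eq_iff.1 hm).2.2 (d j) (by
          have := hn1 j
          have := le_max_right j (d j + 1)
          omega)
        exact hd j h3
      · obtain ⟨k, hk⟩ := Function.ne_iff.1 hy
        refine (Set.finite_le_nat k).subset ?_
        rintro j ⟨m, hm⟩
        by_contra hcon
        have hcon' : k < j := not_le.1 hcon
        have h3 := (node_eq_iff.1 hm).2.2 k (by
          have := hn1 j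
          have := le_max_left j (d j + 1)
          omega)
        rw [hxagree j k hcon'] at h3
        exact hk h3.symm
    obtain ⟨j₀, hj₀⟩ := compact_dual_null hK (tendsto_base hs) one_pos
    have h3 := hj₀ j₀ le_rfl (χ j₀) (hχK j₀)
    rw [coeff_spec] at h3
    exact absurd (hn2 j₀) (not_le.2 h3)
  have hV : ∀ x, {m | ∃ χ ∈ K, coeff χ x = m}.Finite := by
    intro x
    by_contra hinf
    have h1 : ∀ j : ℕ, ∃ χ ∈ K, 2 ^ j ≤ (coeff χ x).natAbs := by
      intro j
      by_contra hcon
      push Not at hcon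
      apply hinf
      refine (Set.finite_Icc (-(2 ^ j : ℤ)) (2 ^ j)).subset ?_
      rintro m ⟨χ, hχ, rfl⟩
      have h2 := hcon χ hχ
      have h3 : ((coeff χ x).natAbs : ℤ) < 2 ^ j := by exact_mod_cast h2
      rw [← Int.abs_eq_natAbs] at h3
      have h4 := abs_lt.1 h3
      exact ⟨h4.1.le, h4.2.le⟩
    choose χ hχK hχx using h1
    have hne : ∀ j, coeff (χ j) x ≠ 0 := by
      intro j h
      have := hχx j
      rw [h, Int.natAbs_zero] at this
      have : 0 < 2 ^ j := by positivity
      omega
    choose n hn1 hn2 using fun j => exists_large (coeff (χ j)) x (hne j) 0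
    let s : ℕ → S := fun j => node x (n j) (idx (coeff (χ j) x))
    have hs : NullSeq s := by
      intro y i
      refine (Set.finite_le_nat i).subset ?_
      rintro j ⟨m, hm⟩
      have h3 := (node_eq_iff.1 hm).2.1
      have h4 : j ≤ Nat.log 2 (coeff (χ j) x).natAbs :=
        Nat.le_log_of_pow_le one_lt_two (hχx j)
      simp only [idx] at h3
      simp only [Set.mem_ofPred_eq]
      omega
    obtain ⟨j₀, hj₀⟩ := compact_dual_null hK (tendsto_base hs) one_pos
    have h3 := hj₀ j₀ le_rfl (χ j₀) (hχK j₀)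
    rw [coeff_spec] at h3
    exact absurd (hn2 j₀) (not_le.2 h3)
  have himg : (coeff '' K).Finite := by
    refine (Finset.finite_toSet (Finset.finsupp hX.toFinset fun x => (hV x).toFinset)).subset ?_
    rintro _ ⟨χ, hχ, rfl⟩
    rw [Finset.mem_coe, Finset.mem_finsupp_iff]
    refine ⟨fun x hx => ?_, fun x _ => ?_⟩
    · rw [Set.Finite.mem_toFinset]
      exact ⟨χ, hχ, Finsupp.mem_support_iff.1 hx⟩
    · rw [Set.Finite.mem_toFinset]
      exact ⟨χ, hχ, rfl⟩
  exact Set.Finite.of_finite_image himg coeff_injective.injOn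

end Pool.Agent.Lib.MP_76381c_al
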