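import Mathlib
import Pool.Agent.Lib.MP_76381c_al.NoCompact

set_option autoImplicit false

open Topology Filter Real
open scoped ZeroAtInfty

namespace Pool.Agent.Lib.MP_76381c_al

lemma nrm_pow_le (z : Circle) (j : ℕ) : nrm (z ^ j) ≤ j * nrm z := by
  induction j with
  | zero => simp
  | succ j ih =>
    rw [pow_succ]
    refine (nrm_mul_le _ _).trans ?_
    push_cast
    linarith

/-- On a set of nodes meeting every branch finitely, functions null along null sequences are
null at infinity. -/
lemma finite_large {A : Set S} (hA : ∀ x i, {n | node x n i ∈ A}.Finite) {f : S → ℝ}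
    (hf : ∀ s : ℕ → S, NullSeq s → Tendsto (fun j => f (s j)) atTop (𝓝 0)) {ε : ℝ} (hε : 0 < ε) :
    {s | s ∈ A ∧ ε ≤ |f s|}.Finite := by
  by_contra hinf
  have hinf' : {s | s ∈ A ∧ ε ≤ |f s|}.Infinite := hinf
  let e := hinf'.natEmbedding
  have hs : NullSeq fun j => (e j : S) := by
    intro x i
    have h1 : ((fun n => node x n i) '' {n | node x n i ∈ A}).Finite := (hA x i).image _
    have hinj : Function.Injective fun j => (e j : S) :=
      fun j j' h => e.injective (Subtype.ext h)
    refine (h1.preimage hinj.injOn).subset ?_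
    rintro j ⟨n, hn⟩
    refine ⟨n, ?_, hn.symm⟩
    simp only [Set.mem_ofPred_eq]
    rw [← hn]
    exact (e j).2.1
  have h2 := (hf _ hs).abs
  rw [abs_zero] at h2
  have h3 : ε ≤ 0 := ge_of_tendsto' h2 fun j => (e j).2.2
  linarith

lemma TT_null (x : Y) (s : ℕ → S) (hs : NullSeq s) :
    Tendsto (fun j => TT x (s j)) atTop (𝓝 0) := by
  have := (hs.tendsto_phi x).add ((FF_qq x).1 s hs)
  rw [add_zero] at this
  exact this

/-- The characters of the defining family as elements of the dual. -/
noncomputable def tD (x : Y) : PontryaginDual GG :=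
  ({ toMonoidHom := tt x, continuous_toFun := continuous_tt x } : GG →ₜ* Circle)

lemma tD_apply (x : Y) (g : GG) : tD x g = tt x g := rfl

lemma mul_dual_apply (χ ψ : PontryaginDual GG) (g : GG) : (χ * ψ) g = χ g * ψ g := rfl
lemma inv_dual_apply (χ : PontryaginDual GG) (g : GG) : (χ⁻¹) g = (χ g)⁻¹ := rfl
lemma div_dual_apply (χ ψ : PontryaginDual GG) (g : GG) : (χ / ψ) g = χ g / ψ g := by
  rw [div_eq_mul_inv, mul_dual_apply, inv_dual_apply, div_eq_mul_inv]

/-- Evaluation as a homomorphism. -/
noncomputable def evalHom (g : GG) : PontryaginDual GG →* Circle where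
  toFun χ := χ g
  map_one' := rfl
  map_mul' _ _ := rfl

lemma pow_dual_apply (χ : PontryaginDual GG) (j : ℕ) (g : GG) : (χ ^ j) g = (χ g) ^ j :=
  map_pow (evalHom g) χ j

lemma zpow_dual_apply (χ : PontryaginDual GG) (j : ℤ) (g : GG) : (χ ^ j) g = (χ g) ^ j :=
  map_zpow (evalHom g) χ j

/-- The set of nodes used by a set. -/
def nodes (C : Set GG) : Set S := {s | ∃ g ∈ C, vec g s ≠ 0}

/-- Approximation of the class by continuous characters, uniformly on compact sets. -/
lemma exists_approx {C : Set GG} (hC : IsCompact C) {f : S → ℝ} (hf : FF f) {ε : ℝ} (hε : 0 < ε) :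
    ∃ χ : PontryaginDual GG, ∀ a ∈ C, nrm (χ a / ch f a) < ε := by
  classical
  obtain ⟨N₀, hN₀⟩ := compact_l1_bound hC
  set N := max N₀ 1 with hN
  have hNpos : 0 < N := lt_of_lt_of_le one_pos (le_max_right _ _)
  have hN' : ∀ g ∈ C, l1 (vec g) ≤ N := fun g hg => (hN₀ g hg).trans (le_max_left _ _)
  have hA : ∀ x i, {n | node x n i ∈ nodes C}.Finite := fun x i => compact_branch hC x i
  set δ := ε / (2 * N) with hδ
  have hδpos : 0 < δ := by positivity
  let Z : ℕ → Set Y := fun n => {x | ∀ s ∈ nodes C, n ≤ s.1.length → phi x s ≤ δ}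
  have hZ : ∀ n, IsClosed (Z n) := by
    intro n
    have : Z n = ⋂ (s : S) (_ : s ∈ nodes C) (_ : n ≤ s.1.length), {x | phi x s ≤ δ} := by
      ext x
      simp [Z]
    rw [this]
    refine isClosed_iInter fun s => isClosed_iInter fun _ => isClosed_iInter fun _ => ?_
    exact isClosed_le (continuous_phi s) continuous_const
  have hcov : ⋃ n, Z n = Set.univ := by
    rw [Set.eq_univ_iff_forall]
    intro x
    have h1 := finite_large hA (f := phi x) (fun s hs => hs.tendsto_phi x) hδpos
    obtain ⟨M, hM⟩ := (h1.image fun s => s.1.length).bddAbove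
    refine Set.mem_iUnion.2 ⟨M + 1, fun s hs hlen => ?_⟩
    by_contra hcon
    have h2 : s ∈ {s | s ∈ nodes C ∧ δ ≤ |phi x s|} :=
      ⟨hs, by rw [abs_of_nonneg (phi_nonneg _ _)]; exact (not_le.1 hcon).le⟩
    have h3 := hM (Set.mem_image_of_mem _ h2)
    omega
  obtain ⟨n, x₀, hx₀⟩ := nonempty_interior_of_iUnion_of_closed hZ hcov
  obtain ⟨n₀, hn₀⟩ := exists_cyl isOpen_interior hx₀
  obtain ⟨x, hx1, hx2⟩ := qq_dense hf x₀ (max n n₀)
  obtain ⟨y, hy1, hy2⟩ := qq_dense FF_zero x₀ (max n n₀)
  have hxZ : x ∈ Z n := interior_subset (hn₀ x fun k hk => hx1 k (lt_max_of_lt_right hk))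
  have hyZ : y ∈ Z n := interior_subset (hn₀ y fun k hk => hy1 k (lt_max_of_lt_right hk))
  refine ⟨tD x / tD y, fun a ha => ?_⟩
  have h1 : (tD x / tD y) a / ch f a =
      Circle.exp (pair (fun s => phi x s - phi y s) (vec a)) := by
    rw [div_dual_apply, tD_apply, tD_apply, tt_apply, tt_apply, ch_apply, pair_sub_left, pair_TT,
      pair_TT, hx2, hy2, ← Circle.exp_sub, ← Circle.exp_sub]
    congr 1
    have : pair 0 (vec a) = 0 := by simp [pair]
    rw [this]
    ring
  rw [h1]
  have h2 : |pair (fun s => phi x s - phi y s) (vec a)| ≤ δ * l1 (vec a) := by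
    refine abs_pair_le fun s hs => ?_
    have hsA : s ∈ nodes C := ⟨a, ha, Finsupp.mem_support_iff.1 hs⟩
    by_cases hlen : s.1.length < max n n₀
    · have h3 : phi x s = phi y s := phi_congr fun k hk => by
        rw [hx1 k (hk.trans hlen), hy1 k (hk.trans hlen)]
      simp only [h3, sub_self, abs_zero]
      exact hδpos.le
    · have hlen' : n ≤ s.1.length := (le_max_left _ _).trans (not_lt.1 hlen)
      have h3 := hxZ s hsA hlen'
      have h4 := hyZ s hsA hlen'
      have h5 := phi_nonneg x s
      have h6 := phi_nonneg y s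
      rw [abs_le]
      constructor <;> linarith
  calc nrm (Circle.exp (pair (fun s => phi x s - phi y s) (vec a))) ≤
        |pair (fun s => phi x s - phi y s) (vec a)| := nrm_exp_le _
    _ ≤ δ * l1 (vec a) := h2
    _ ≤ δ * N := by
        have := hN' a ha
        gcongr
    _ < ε := by
        rw [hδ]
        field_simp
        linarith

/-- Uniform approximation on `C`. -/
def Approx (C : Set GG) (v : GG → Circle) (χ : ℕ → PontryaginDual GG) : Prop :=
  ∀ ε > 0, ∀ᶠ n in atTop, ∀ a ∈ C, nrm (χ n a / v a) < ε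

lemma exists_approx_seq {C : Set GG} (hC : IsCompact C) {f : S → ℝ} (hf : FF f) :
    ∃ χ, Approx C (ch f) χ := by
  choose χ hχ using fun n : ℕ => exists_approx hC hf (ε := 1 / ((n : ℝ) + 1)) (by positivity)
  refine ⟨χ, fun ε hε => ?_⟩
  have h1 := (tendsto_one_div_add_atTop_nhds_zero_nat (𝕜 := ℝ)).eventually_lt_const hε
  filter_upwards [h1] with n hn a ha
  exact (hχ n a ha).trans hn

/-- A quantitative form of continuity of a character of the dual. -/
def Ctrl (C : Set GG) (δ : ℝ) (ξ : PontryaginDual (PontryaginDual GG)) : Prop :=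
  ∀ k : ℕ, 0 < k → ∀ χ : PontryaginDual GG, (∀ a ∈ C, nrm (χ a) < δ / k) → nrm (ξ χ) < π / (2 * k)

lemma exists_ctrl (ξ : PontryaginDual (PontryaginDual GG)) :
    ∃ C : Set GG, IsCompact C ∧ ∃ δ > 0, Ctrl C δ ξ := by
  have h1 : {χ : PontryaginDual GG | nrm (ξ χ) < π / 2} ∈ 𝓝 (1 : PontryaginDual GG) := by
    have hc : Continuous fun χ : PontryaginDual GG => nrm (ξ χ) :=
      continuous_nrm.comp (map_continuous ξ)
    have h2 := hc.continuousAt (x := (1 : PontryaginDual GG)).preimage_mem_nhds
      (t := Set.Iio (π / 2)) (by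
      rw [map_one, nrm_one]
      exact Iio_mem_nhds (by positivity))
    exact h2
  obtain ⟨C, hC, δ, hδ, h⟩ := dual_nhds_one h1
  refine ⟨C, hC, δ, hδ, fun k hk χ hχ => ?_⟩
  refine nrm_lt_of_pow hk fun j hj hjk => ?_
  rw [← map_pow]
  refine h (χ ^ j) fun a ha => ?_
  rw [pow_dual_apply]
  have hk' : (0 : ℝ) < k := by exact_mod_cast hk
  have hj' : (0 : ℝ) < j := by exact_mod_cast hj
  have hjk' : (j : ℝ) ≤ k := by exact_mod_cast hjk
  calc nrm (χ a ^ j) ≤ j * nrm (χ a) := nrm_pow_le _ _
    _ ≤ k * nrm (χ a) := mul_le_mul_of_nonneg_right hjk' (nrm_nonneg _)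
    _ < k * (δ / k) := by
        have := hχ a ha
        gcongr
    _ = δ := by field_simp

/-- The extension of a character of the dual to approximable functions. -/
lemma exists_limit {C : Set GG} {δ : ℝ} (hδ : 0 < δ)
    {ξ : PontryaginDual (PontryaginDual GG)} (hξ : Ctrl C δ ξ) {v : GG → Circle}
    (hv : ∃ χ, Approx C v χ) :
    ∃ z : Circle, ∀ χ, Approx C v χ → Tendsto (fun n => ξ (χ n)) atTop (𝓝 z) := by
  obtain ⟨χ₀, hχ₀⟩ := hv
  obtain ⟨z, φ, hφ, hz⟩ := CompactSpace.tendsto_subseq (fun n => ξ (χ₀ n))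
  refine ⟨z, fun χ hχ => ?_⟩
  rw [tendsto_iff_nrm_div, Metric.tendsto_atTop]
  intro ε hε
  obtain ⟨k, hk⟩ := exists_nat_gt (π / ε)
  have hk0 : (0 : ℝ) < k := lt_of_le_of_lt (by positivity) hk
  have hk0' : 0 < k := by exact_mod_cast hk0
  have h1 := hχ (δ / k / 2) (by positivity)
  obtain ⟨M, hM⟩ := eventually_atTop.1 h1
  refine ⟨M, fun n hn => ?_⟩
  rw [Real.dist_eq, sub_zero, abs_of_nonneg (nrm_nonneg _)]
  have h2 := hM n hn
  have h3 : ∀ᶠ m in atTop, nrm (ξ (χ n) / ξ (χ₀ (φ m))) ≤ π / (2 * k) := by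
    have h4 := hφ.tendsto_atTop.eventually (hχ₀ (δ / k / 2) (by positivity))
    filter_upwards [h4] with m hm
    rw [← map_div]
    refine (hξ k hk0' _ fun a ha => ?_).le
    rw [div_dual_apply]
    have h5 := nrm_div_triangle (χ n a) (v a) (χ₀ (φ m) a)
    have h6 := h2 a ha
    have h7 := hm a ha
    rw [nrm_div_comm] at h7
    linarith
  have h4 : Tendsto (fun m => nrm (ξ (χ n) / ξ (χ₀ (φ m)))) atTop (𝓝 (nrm (ξ (χ n) / z))) :=
    (continuous_nrm.tendsto _).comp (hz.const_div' _)
  have h5 := le_of_tendsto h4 h3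
  have h6 : π / (2 * k) < ε := by
    rw [div_lt_iff₀ (by positivity)]
    rw [div_lt_iff₀ hε] at hk
    nlinarith
  linarith

/-- Evaluation on the Banach space. -/
def evC0 (t : SD) : C₀(SD, ℝ) →+ ℝ where
  toFun u := u t
  map_zero' := rfl
  map_add' _ _ := rfl

/-- Every continuous character of the dual is an evaluation. -/
theorem exists_eval (ξ : PontryaginDual (PontryaginDual GG)) :
    ∃ g : GG, ∀ χ : PontryaginDual GG, ξ χ = χ g := by
  classical
  obtain ⟨C, hC, δ, hδ, hξ⟩ := exists_ctrl ξ
  obtain ⟨N₀, hN₀⟩ := compact_l1_bound hC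
  set N := max N₀ 1 with hN
  have hNpos : 0 < N := lt_of_lt_of_le one_pos (le_max_right _ _)
  have hN' : ∀ g ∈ C, l1 (vec g) ≤ N := fun g hg => (hN₀ g hg).trans (le_max_left _ _)
  have hA : ∀ x i, {n | node x n i ∈ nodes C}.Finite := fun x i => compact_branch hC x i
  -- the extension to the Banach space
  have hEFF : ∀ u : C₀(SD, ℝ), FF (fun s => u s) :=
    fun u => FF_of_cofinite (tendsto_cofinite_of_C0 u)
  choose κ hκ using fun u : C₀(SD, ℝ) => exists_limit hδ hξ (exists_approx_seq hC (hEFF u))
  have hκ_of : ∀ (u : C₀(SD, ℝ)) (χ : PontryaginDual GG),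
      (∀ a ∈ C, χ a = ch (fun s => u s) a) → κ u = ξ χ := by
    intro u χ h
    have h1 := hκ u (fun _ => χ) (fun ε hε => Eventually.of_forall fun n a ha => by
      rw [h a ha, div_self', nrm_one]
      exact hε)
    exact tendsto_nhds_unique h1 tendsto_const_nhds
  have hκadd : ∀ u v, κ (u + v) = κ u * κ v := by
    intro u v
    obtain ⟨χ, hχ⟩ := exists_approx_seq hC (hEFF u)
    obtain ⟨ψ, hψ⟩ := exists_approx_seq hC (hEFF v)
    have h1 : Approx C (ch fun s => (u + v) s) (fun n => χ n * ψ n) := by
      intro ε hε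
      filter_upwards [hχ (ε / 2) (by positivity), hψ (ε / 2) (by positivity)] with n h1 h2 a ha
      have e1 : ch (fun s => (u + v) s) a = ch (fun s => u s) a * ch (fun s => v s) a := by
        rw [ch_apply, ch_apply, ch_apply, ← Circle.exp_add, ← pair_add_left]
        rfl
      rw [e1, mul_dual_apply, mul_div_mul_comm]
      refine (nrm_mul_le _ _).trans_lt ?_
      have := h1 a ha
      have := h2 a ha
      linarith
    have h2 := hκ (u + v) _ h1
    have h3 := (hκ u χ hχ).mul (hκ v ψ hψ)
    refine tendsto_nhds_unique h2 (h3.congr fun n => ?_)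
    rw [map_mul]
  have hκsmall : ∀ (u : C₀(SD, ℝ)) (k : ℕ), 0 < k → ‖u‖ * N < δ / k →
      nrm (κ u) ≤ π / (2 * k) := by
    intro u k hk hu
    obtain ⟨χ, hχ⟩ := exists_approx_seq hC (hEFF u)
    have h1 : Tendsto (fun n => nrm (ξ (χ n))) atTop (𝓝 (nrm (κ u))) :=
      (continuous_nrm.tendsto _).comp (hκ u χ hχ)
    refine le_of_tendsto h1 ?_
    filter_upwards [hχ (δ / k - ‖u‖ * N) (by linarith)] with n hn
    refine (hξ k hk _ fun a ha => ?_).le
    have h2 := nrm_sub_le (χ n a) (ch (fun s => u s) a)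
    have h3 : nrm (ch (fun s => u s) a) ≤ ‖u‖ * N := by
      rw [ch_apply]
      refine (nrm_exp_le _).trans ((abs_pair_le fun s _ => abs_le_norm_C0 u s).trans ?_)
      exact mul_le_mul_of_nonneg_left (hN' a ha) (norm_nonneg _)
    have h4 := hn a ha
    linarith
  have hκcont : Continuous κ := by
    rw [continuous_iff_continuousAt]
    intro u
    rw [ContinuousAt, tendsto_iff_nrm_div]
    have h0 : ∀ v, κ v / κ u = κ (v - u) := by
      intro v
      have := hκadd (v - u) u
      rw [sub_add_cancel] at this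
      rw [this]
      simp
    simp_rw [h0]
    rw [Metric.tendsto_nhds_nhds]
    intro ε hε
    obtain ⟨k, hk⟩ := exists_nat_gt (π / ε)
    have hk0 : (0 : ℝ) < k := lt_of_le_of_lt (by positivity) hk
    have hk0' : 0 < k := by exact_mod_cast hk0
    refine ⟨δ / k / N, by positivity, fun {v} hv => ?_⟩
    rw [dist_eq_norm] at hv
    rw [Real.dist_eq, sub_zero, abs_of_nonneg (nrm_nonneg _)]
    have h1 := hκsmall (v - u) k hk0' (by
      rw [lt_div_iff₀ hNpos] at hv
      exact hv)
    have h6 : π / (2 * k) < ε := by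
      rw [div_lt_iff₀ (by positivity)]
      rw [div_lt_iff₀ hε] at hk
      nlinarith
    linarith
  obtain ⟨l, hl⟩ := exists_lift κ hκadd hκcont
  -- the coefficients
  let e : S → S → ℝ := fun s t => if t = s then 1 else 0
  have he : ∀ (c : ℝ) (s : S), Tendsto (fun t => c * e s t) cofinite (𝓝 0) := by
    intro c s
    refine tendsto_cofinite_of_finite (F := {s}) fun t ht => ?_
    rw [Finset.mem_singleton] at ht
    simp [e, ht]
  have hpe : ∀ (c : ℝ) (s : S) (a : S →₀ ℤ), pair (fun t => c * e s t) a = c * a s := by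
    intro c s a
    rw [pair_smul_left]
    congr 1
    unfold pair
    simp only [e, mul_ite, mul_one, mul_zero]
    rw [Finsupp.sum, Finset.sum_ite_eq']
    split_ifs with h
    · rfl
    · rw [Finsupp.notMem_support_iff] at h
      simp [h]
  let m : S → ℝ := fun s => l (finC0 (fun t => 1 * e s t) (he 1 s))
  have hlsmul : ∀ (c : ℝ) (s : S), l (finC0 (fun t => c * e s t) (he c s)) = c * m s := by
    intro c s
    have : finC0 (fun t => c * e s t) (he c s) = c • finC0 (fun t => 1 * e s t) (he 1 s) := by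
      ext t
      change c * e s t = c * (1 * e s t)
      ring
    rw [this, map_smul]
    rfl
  have hmint : ∀ s, ∃ n : ℤ, m s = n := by
    intro s
    have h1 : κ (finC0 (fun t => (2 * π) * e s t) (he _ s)) = 1 := by
      rw [hκ_of _ 1, map_one]
      intro a _
      have : ch (fun t => (finC0 (fun t => (2 * π) * e s t) (he _ s)) t) a =
          Circle.exp ((2 * π) * (vec a s)) := by
        rw [ch_apply, ← hpe]
        rfl
      rw [this, Circle.exp_two_pi_mul_int]
      rfl
    rw [hl, hlsmul, Circle.exp_eq_one] at h1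
    obtain ⟨n, hn⟩ := h1
    refine ⟨n, ?_⟩
    have := pi_pos
    have h2 : (2 * π) * m s = (2 * π) * n := by rw [hn]; ring
    exact mul_left_cancel₀ (by positivity) h2
  choose b hb using hmint
  have hbA : ∀ s, s ∉ nodes C → b s = 0 := by
    intro s hs
    have h1 : ∀ c : ℝ, Circle.exp (c * m s) = 1 := by
      intro c
      rw [← hlsmul, ← hl, hκ_of _ 1, map_one]
      intro a ha
      have h2 : vec a s = 0 := by
        by_contra hne
        exact hs ⟨a, ha, hne⟩
      have : ch (fun t => (finC0 (fun t => c * e s t) (he _ s)) t) a =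
          Circle.exp (c * (vec a s)) := by
        rw [ch_apply, ← hpe]
        rfl
      rw [this, h2]
      simp
    by_contra hne
    have hne' : m s ≠ 0 := by
      rw [hb]
      exact_mod_cast hne
    have h2 := h1 (π / m s)
    rw [div_mul_cancel₀ _ hne'] at h2
    exact Circle.exp_pi_ne_one h2
  -- finite sums
  have hlsum : ∀ (u : S → ℝ) (F : Finset S) (hu : Tendsto (fun t => if t ∈ F then u t else 0)
      cofinite (𝓝 0)), l (finC0 (fun t => if t ∈ F then u t else 0) hu) =
      ∑ s ∈ F, u s * m s := by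
    intro u F hu
    have : finC0 (fun t => if t ∈ F then u t else 0) hu =
        ∑ s ∈ F, finC0 (fun t => u s * e s t) (he _ s) := by
      have key : ∀ t : S, evC0 t (finC0 (fun t => if t ∈ F then u t else 0) hu) =
          evC0 t (∑ s ∈ F, finC0 (fun t => u s * e s t) (he (u s) s)) := by
        intro t
        have h1 := map_sum (evC0 t) (fun s => finC0 (fun t => u s * e s t) (he (u s) s)) F
        rw [h1]
        have h3 : ∀ s : S, evC0 t (finC0 (fun t => u s * e s t) (he (u s) s)) = u s * e s t :=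
          fun s => rfl
        simp_rw [h3]
        have h4 : evC0 t (finC0 (fun t => if t ∈ F then u t else 0) hu) =
            if t ∈ F then u t else 0 := rfl
        rw [h4]
        simp only [e, mul_ite, mul_one, mul_zero]
        rw [Finset.sum_ite_eq]
      ext t
      exact key t
    rw [this, map_sum]
    exact Finset.sum_congr rfl fun s _ => hlsmul _ _
  have hcut : ∀ (u : S → ℝ) (F : Finset S), Tendsto (fun t => if t ∈ F then u t else 0)
      cofinite (𝓝 0) := fun u F => tendsto_cofinite_of_finite (F := F) fun t ht => by simp [ht]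
  have hbfin : {s | b s ≠ 0}.Finite := by
    by_contra hinf
    have hinf' : {s | b s ≠ 0}.Infinite := hinf
    obtain ⟨k, hk⟩ := exists_nat_gt ‖l‖
    obtain ⟨F, hF, hcard⟩ := hinf'.exists_subset_card_eq k
    let u : S → ℝ := fun s => SignType.sign (m s)
    have h1 := hlsum u F (hcut u F)
    have h2 : ∑ s ∈ F, u s * m s = ∑ s ∈ F, |m s| := by
      refine Finset.sum_congr rfl fun s _ => ?_
      simp only [u]
      exact sign_mul_self _
    have h3 : (k : ℝ) ≤ ∑ s ∈ F, |m s| := by
      have h4 : ∀ s ∈ F, (1 : ℝ) ≤ |m s| := by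
        intro s hs
        rw [hb]
        have h5 := hF hs
        have h6 : 1 ≤ |b s| := Int.one_le_abs h5
        exact_mod_cast h6
      have h5 := Finset.sum_le_sum h4
      rw [Finset.sum_const, hcard] at h5
      simpa using h5
    have h4 : ‖finC0 (fun t => if t ∈ F then u t else 0) (hcut u F)‖ ≤ 1 := by
      refine norm_finC0_le _ zero_le_one fun s => ?_
      split_ifs
      · simp only [u]
        rcases lt_trichotomy (m s) 0 with h | h | h
        · simp [sign_neg h]
        · simp [h]
        · simp [sign_pos h]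
      · simp
    have h5 := l.le_opNorm (finC0 (fun t => if t ∈ F then u t else 0) (hcut u F))
    rw [h1, h2, Real.norm_eq_abs] at h5
    have h6 := le_abs_self (∑ s ∈ F, |m s|)
    have h7 := norm_nonneg l
    nlinarith
  let B : S →₀ ℤ := Finsupp.onFinset hbfin.toFinset b (fun s hs => by
    rw [Set.Finite.mem_toFinset]
    exact hs)
  have hB : ∀ s, B s = b s := fun s => rfl
  have hBsupp : ∀ s, s ∈ B.support ↔ b s ≠ 0 := fun s => by
    rw [Finsupp.mem_support_iff, hB]
  -- the functional is given by the pairing with `B`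
  have hlB : ∀ (u : S → ℝ) (hu : Tendsto u cofinite (𝓝 0)), l (finC0 u hu) = pair u B := by
    intro u hu
    rw [← sub_eq_zero, ← abs_eq_zero]
    refine le_antisymm ?_ (abs_nonneg _)
    refine le_of_forall_pos_le_add fun ε hε => ?_
    rw [zero_add]
    set ε' := ε / (‖l‖ + 1) with hε'
    have hlpos : 0 < ‖l‖ + 1 := by positivity
    have hε'pos : 0 < ε' := by positivity
    have hfin : {s | ¬ |u s| < ε'}.Finite := by
      have h1 := hu.abs
      rw [abs_zero] at h1
      exact h1.eventually_lt_const hε'pos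
    set F := hfin.toFinset ∪ B.support with hF
    have h1 := hlsum u F (hcut u F)
    have h2 : ∑ s ∈ F, u s * m s = pair u B := by
      unfold pair
      rw [Finsupp.sum_of_support_subset B (Finset.subset_union_right : B.support ⊆ F) _ (by simp)]
      refine Finset.sum_congr rfl fun s _ => ?_
      rw [hB, hb, mul_comm]
    rw [h2] at h1
    have h3 : ‖finC0 u hu - finC0 (fun t => if t ∈ F then u t else 0) (hcut u F)‖ ≤ ε' := by
      have h4 : Tendsto (fun t => u t - if t ∈ F then u t else 0) cofinite (𝓝 0) := by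
        have := hu.sub (hcut u F)
        rw [sub_zero] at this
        exact this
      have h5 : finC0 u hu - finC0 (fun t => if t ∈ F then u t else 0) (hcut u F) =
          finC0 (fun t => u t - if t ∈ F then u t else 0) h4 := rfl
      rw [h5]
      refine norm_finC0_le _ hε'pos.le fun s => ?_
      by_cases hs : s ∈ F
      · simp [hs, hε'pos.le]
      · have hs' : s ∉ hfin.toFinset := fun h => hs (Finset.mem_union_left _ h)
        rw [Set.Finite.mem_toFinset] at hs'
        simp only [Set.mem_ofPred_eq, not_not] at hs'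
        simp [hs, hs'.le]
    rw [← h1, ← map_sub, ← Real.norm_eq_abs]
    calc ‖l (finC0 u hu - finC0 (fun t => if t ∈ F then u t else 0) (hcut u F))‖ ≤
          ‖l‖ * ‖finC0 u hu - finC0 (fun t => if t ∈ F then u t else 0) (hcut u F)‖ :=
          l.le_opNorm _
      _ ≤ ‖l‖ * ε' := mul_le_mul_of_nonneg_left h3 (norm_nonneg _)
      _ ≤ (‖l‖ + 1) * ε' := by nlinarith
      _ = ε := by rw [hε']; field_simp
  -- the values on the generators
  have hgen : ∀ x, ξ (tD x) = tt x (unvec B) := by
    intro x
    let u : S → ℝ := fun s => if s ∈ nodes C then TT x s else 0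
    have hu : Tendsto u cofinite (𝓝 0) := by
      rw [Metric.tendsto_nhds]
      intro ε hε
      have h1 := finite_large hA (f := TT x) (TT_null x) hε
      refine h1.subset fun s hs => ?_
      simp only [Set.mem_compl_iff, Set.mem_ofPred_eq, dist_zero_right, Real.norm_eq_abs,
        not_lt] at hs
      by_cases hsA : s ∈ nodes C
      · simp only [u, hsA, if_true] at hs
        exact ⟨hsA, hs⟩
      · simp only [u, hsA, if_false, abs_zero] at hs
        linarith
    have h1 : κ (finC0 u hu) = ξ (tD x) := by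
      refine hκ_of _ _ fun a ha => ?_
      rw [tD_apply, tt_apply, ch_apply]
      congr 1
      refine pair_congr fun s hs => ?_
      have hsA : s ∈ nodes C := ⟨a, ha, Finsupp.mem_support_iff.1 hs⟩
      change TT x s = u s
      simp [u, hsA]
    rw [← h1, hl, hlB, tt_apply, vec_unvec]
    congr 1
    refine pair_congr fun s hs => ?_
    have hsA : s ∈ nodes C := by
      by_contra hcon
      exact (hBsupp s).1 hs (hbA s hcon)
    simp [u, hsA]
  refine ⟨unvec B, fun χ => ?_⟩
  have h1 : χ = (coeff χ).prod fun x n => tD x ^ n := by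
    refine PontryaginDual.ext fun g => ?_
    rw [coeff_spec χ g]
    have h2 : ((coeff χ).prod fun x n => tD x ^ n) g =
        evalHom g ((coeff χ).prod fun x n => tD x ^ n) := rfl
    rw [h2, map_finsuppProd]
    refine Finsupp.prod_congr fun x _ => ?_
    rw [map_zpow]
    rfl
  rw [coeff_spec χ (unvec B)]
  conv_lhs => rw [h1]
  rw [map_finsuppProd]
  refine Finsupp.prod_congr fun x _ => ?_
  rw [map_zpow, hgen]

end Pool.Agent.Lib.MP_76381c_al
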