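import Mathlib
import Pool.Agent.Lib.MP_76381c_al.Surj

set_option autoImplicit false

open Topology Filter Real

namespace Pool.Agent.Lib.MP_76381c_al

lemma GG_precompact (U : Set GG) (hU : U ∈ 𝓝 (1 : GG)) :
    ∃ F : Finset GG, ∀ g : GG, ∃ f ∈ F, ∃ u ∈ U, g = f * u := by
  rw [isInducing_tmap.nhds_eq_comap, mem_comap, map_one] at hU
  obtain ⟨V, hV, hsub⟩ := hU
  let W : GG → Set (Y → Circle) := fun g => {p | (tmap g)⁻¹ * p ∈ interior V}
  have hW : ∀ g, IsOpen (W g) := fun g =>
    isOpen_interior.preimage (continuous_const.mul continuous_id)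
  have hK : IsCompact (closure (Set.range tmap)) := isClosed_closure.isCompact
  obtain ⟨F, hF⟩ := hK.elim_finite_subcover W hW (by
    intro p hp
    have h1 : IsOpen {q : Y → Circle | q⁻¹ * p ∈ interior V} :=
      isOpen_interior.preimage (continuous_id.inv.mul continuous_const)
    have h2 : p ∈ {q : Y → Circle | q⁻¹ * p ∈ interior V} := by
      simp only [Set.mem_ofPred_eq, inv_mul_cancel]
      exact mem_interior_iff_mem_nhds.2 hV
    obtain ⟨q, hq1, g, rfl⟩ := mem_closure_iff.1 hp _ h1 h2
    exact Set.mem_iUnion.2 ⟨g, hq1⟩)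
  refine ⟨F, fun g => ?_⟩
  have h1 := hF (subset_closure ⟨g, rfl⟩)
  simp only [Set.mem_iUnion] at h1
  obtain ⟨f, hf, hfg⟩ := h1
  refine ⟨f, hf, f⁻¹ * g, hsub ?_, by simp⟩
  have h2 : (tmap f)⁻¹ * tmap g ∈ V := interior_subset hfg
  rw [← map_inv, ← map_mul] at h2
  exact h2

/-- The evaluation map. -/
noncomputable def alpha (g : GG) : PontryaginDual (PontryaginDual GG) :=
  ({ toMonoidHom := evalHom g, continuous_toFun := continuous_eval_dual g } :
    PontryaginDual GG →ₜ* Circle)

lemma alpha_apply (g : GG) (χ : PontryaginDual GG) : alpha g χ = χ g := rfl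

lemma alpha_injective : Function.Injective alpha := by
  intro g h hgh
  rw [← div_eq_one]
  refine eq_one_of_tt fun x => ?_
  rw [map_div, div_eq_one]
  have := DFunLike.congr_fun hgh (tD x)
  exact this

lemma alpha_surjective : Function.Surjective alpha := by
  intro ξ
  obtain ⟨g, hg⟩ := exists_eval ξ
  exact ⟨g, PontryaginDual.ext fun χ => (hg χ).symm⟩

/-- The evaluation map as a homomorphism. -/
noncomputable def alphaHom : GG →* PontryaginDual (PontryaginDual GG) where
  toFun := alpha
  map_one' := PontryaginDual.ext fun χ => map_one χ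
  map_mul' g h := PontryaginDual.ext fun χ => map_mul χ g h

lemma continuous_alpha : Continuous alpha := by
  have h : Continuous alphaHom := by
    refine continuous_of_continuousAt_one alphaHom ?_
    rw [ContinuousAt, map_one]
    intro W hW
    obtain ⟨K, hK, δ, hδ, h⟩ := dual_nhds_one hW
    have hKfin := compact_dual_finite hK
    have h1 : ∀ᶠ g in 𝓝 (1 : GG), ∀ χ ∈ K, nrm (χ g) < δ := by
      rw [Filter.eventually_all_finite hKfin]
      intro χ _
      have hc : Continuous fun g : GG => nrm (χ g) := continuous_nrm.comp (map_continuous χ)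
      have h2 := hc.tendsto 1
      rw [map_one, nrm_one] at h2
      exact h2.eventually_lt_const hδ
    rw [mem_map]
    filter_upwards [h1] with g hg
    exact h _ hg
  exact h

/-- The evaluation map is a homeomorphism. -/
noncomputable def alphaHomeo : GG ≃ₜ PontryaginDual (PontryaginDual GG) where
  toEquiv := Equiv.ofBijective alpha ⟨alpha_injective, alpha_surjective⟩
  continuous_toFun := continuous_alpha
  continuous_invFun := by
    rw [isInducing_tmap.continuous_iff]
    refine continuous_pi fun x => ?_
    have h1 : Continuous fun ξ : PontryaginDual (PontryaginDual GG) => ξ (tD x) :=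
      continuous_eval_dual (tD x)
    refine h1.congr fun ξ => ?_
    obtain ⟨g, rfl⟩ := alpha_surjective ξ
    change alpha g (tD x) =
      tt x ((Equiv.ofBijective alpha ⟨alpha_injective, alpha_surjective⟩).symm (alpha g))
    have h2 : (Equiv.ofBijective alpha ⟨alpha_injective, alpha_surjective⟩).symm (alpha g) = g :=
      (Equiv.ofBijective alpha ⟨alpha_injective, alpha_surjective⟩).symm_apply_apply g
    rw [h2]
    rfl

end Pool.Agent.Lib.MP_76381c_al
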